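import Mathlib
import Pool.Agent.Q167.LV.Two
set_option autoImplicit false

/-! # Solutions of `w'' = (c - q) w` on the line, `q` decaying -/

namespace Pool.Agent.Q167.SR

open Set Filter Topology
open Pool.Agent.Q167.LV

/-- one-sided estimate, local version -/
lemma drop' {v v' P : ℝ → ℝ} {K : ℝ} (hK : 0 < K) (hv : ∀ x, HasDerivAt v (v' x) x)
    (hv' : ∀ x, HasDerivAt v' (-(P x * v x)) x) {s β : ℝ} (hP : ∀ x ∈ Icc s β, P x ≤ K ^ 2) (hsβ : s ≤ β)
    (h0 : v' s = 0) (hpos : ∀ x ∈ Icc s β, 0 ≤ v x) (hle : ∀ x ∈ Icc s β, v x ≤ v s)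
    (hs : 0 < v s) (hβ : v β = 0) : 1 ≤ K * (β - s) := by
  have hC : 0 ≤ K ^ 2 := sq_nonneg K
  have hder : ∀ x, HasDerivAt (fun x => v' x + K ^ 2 * v s * (x - s)) (-(P x * v x) + K ^ 2 * v s * 1) x :=
    fun x => (hv' x).add (((hasDerivAt_id x).sub_const s).const_mul _)
  have h1 : ∀ x ∈ Icc s β, 0 ≤ v' x + K ^ 2 * v s * (x - s) := by
    have hm : MonotoneOn (fun x => v' x + K ^ 2 * v s * (x - s)) (Icc s β) := by
      apply monotoneOn_of_deriv_nonneg (convex_Icc s β)
      · intro x _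
        exact (hder x).continuousAt.continuousWithinAt
      · intro x _
        exact (hder x).differentiableAt.differentiableWithinAt
      · intro x hx
        rw [interior_Icc] at hx
        rw [(hder x).deriv]
        have a1 := hpos x ⟨hx.1.le, hx.2.le⟩
        have a2 := hle x ⟨hx.1.le, hx.2.le⟩
        have a3 := hP x ⟨hx.1.le, hx.2.le⟩
        nlinarith [mul_le_mul_of_nonneg_right a3 a1, mul_le_mul_of_nonneg_left a2 hC]
    intro x hx
    have := hm (left_mem_Icc.2 hsβ) hx hx.1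
    simpa [h0] using this
  have h2 : MonotoneOn (fun x => v x + K ^ 2 * v s * (x - s) ^ 2 / 2) (Icc s β) := by
    have hd : ∀ x, HasDerivAt (fun x => v x + K ^ 2 * v s * (x - s) ^ 2 / 2)
        (v' x + K ^ 2 * v s * (x - s)) x := by
      intro x
      have e1 : HasDerivAt (fun x : ℝ => (x - s) ^ 2) (2 * (x - s)) x := by
        have := (((hasDerivAt_id x).sub_const s).fun_pow 2)
        refine this.congr_deriv ?_
        push_cast
        simp
      have e2 := (hv x).fun_add ((e1.const_mul (K ^ 2 * v s)).div_const 2)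
      refine e2.congr_deriv ?_
      ring
    apply monotoneOn_of_deriv_nonneg (convex_Icc s β)
    · intro x _; exact (hd x).continuousAt.continuousWithinAt
    · intro x _; exact (hd x).differentiableAt.differentiableWithinAt
    · intro x hx
      rw [interior_Icc] at hx
      rw [(hd x).deriv]
      exact h1 x ⟨hx.1.le, hx.2.le⟩
  have h3 := h2 (left_mem_Icc.2 hsβ) (right_mem_Icc.2 hsβ) hsβ
  simp only [sub_self, hβ] at h3
  have h4 : 1 ≤ (K * (β - s)) ^ 2 / 2 := by
    have : v s * 1 ≤ v s * ((K * (β - s)) ^ 2 / 2) := by nlinarith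
    exact le_of_mul_le_mul_left this hs
  have h5 : 0 ≤ K * (β - s) := mul_nonneg hK.le (by linarith)
  nlinarith

lemma gap' {v v' P : ℝ → ℝ} {K : ℝ} (hK : 0 < K) (hv : ∀ x, HasDerivAt v (v' x) x)
    (hv' : ∀ x, HasDerivAt v' (-(P x * v x)) x)
    (hs : ∀ x, v x = 0 → v' x ≠ 0) {α β : ℝ} (hP : ∀ x ∈ Icc α β, P x ≤ K ^ 2) (hαβ : α < β)
    (hα : v α = 0) (hβ : v β = 0) : 1 ≤ K * (β - α) := by
  have hcont : Continuous v := continuous_iff_continuousAt.2 fun x => (hv x).continuousAt
  obtain ⟨s, hsm, hmax⟩ := isCompact_Icc.exists_isMaxOn (s := Icc α β) ⟨α, le_rfl, hαβ.le⟩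
    (f := fun x => |v x|) hcont.abs.continuousOn
  have hpos : 0 < |v s| := by
    by_contra hcon
    have hz : ∀ x ∈ Icc α β, v x = 0 := by
      intro x hx
      have := hmax hx
      simp only [mem_ofPred_eq] at this
      have h2 := abs_nonneg (v x)
      exact abs_eq_zero.1 (by linarith)
    obtain ⟨c, hc, hc0⟩ := exists_hasDerivAt_eq_zero hαβ hcont.continuousOn (by rw [hα, hβ]) (fun x _ => hv x)
    exact hs c (hz c ⟨hc.1.le, hc.2.le⟩) hc0
  have hsa : α < s := lt_of_le_of_ne hsm.1 (fun e => by rw [← e, hα] at hpos; simp at hpos)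
  have hsb : s < β := lt_of_le_of_ne hsm.2 (fun e => by rw [e, hβ] at hpos; simp at hpos)
  have key : ∀ (f f' : ℝ → ℝ), (∀ x, HasDerivAt f (f' x) x) → (∀ x, HasDerivAt f' (-(P x * f x)) x) →
      0 < f s → (∀ x ∈ Icc α β, |f x| ≤ |f s|) → f β = 0 → 1 ≤ K * (β - α) := by
    intro f f' hf hf' hfs hfm hfβ
    have hfc : Continuous f := continuous_iff_continuousAt.2 fun x => (hf x).continuousAt
    have hcomp : IsCompact (Icc s β ∩ f ⁻¹' {0}) :=
      isCompact_Icc.inter_right (isClosed_singleton.preimage hfc)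
    obtain ⟨τ, hτ, hleast⟩ := hcomp.exists_isLeast ⟨β, ⟨hsb.le, le_rfl⟩, hfβ⟩
    have hτ1 : s ≤ τ := hτ.1.1
    have hτ2 : τ ≤ β := hτ.1.2
    have hτ0 : f τ = 0 := hτ.2
    have hnn : ∀ x ∈ Icc s τ, 0 ≤ f x := by
      intro x hx
      by_contra hcon
      push Not at hcon
      obtain ⟨r, hr, hr0⟩ := intermediate_value_Icc' hx.1 hfc.continuousOn
        (show (0 : ℝ) ∈ Icc (f x) (f s) from ⟨hcon.le, hfs.le⟩)
      have h1 : τ ≤ r := hleast ⟨⟨hr.1, hr.2.trans (hx.2.trans hτ2)⟩, hr0⟩
      have h2 : r = x := le_antisymm hr.2 (hx.2.trans h1)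
      rw [h2] at hr0
      linarith
    have hder : f' s = 0 := by
      have hloc : IsLocalMax f s := by
        filter_upwards [Icc_mem_nhds hsa hsb] with x hx
        have h1 := hfm x hx
        rw [abs_of_pos hfs] at h1
        exact (le_abs_self _).trans h1
      exact hloc.hasDerivAt_eq_zero (hf s)
    have h1 := drop' hK hf hf' (fun x hx => hP x ⟨hsa.le.trans hx.1, hx.2.trans hτ2⟩) hτ1 hder hnn
      (fun x hx => by
        have h1 := hfm x ⟨hsa.le.trans hx.1, hx.2.trans hτ2⟩
        rw [abs_of_pos hfs] at h1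
        exact (le_abs_self _).trans h1) hfs hτ0
    have h2 : K * (τ - s) ≤ K * (β - α) := mul_le_mul_of_nonneg_left (by linarith) hK.le
    linarith
  rcases lt_or_gt_of_ne (abs_pos.1 hpos) with h | h
  · apply key (fun x => -v x) (fun x => -v' x) (fun x => (hv x).neg)
      (fun x => by
        have h5 := (hv' x).fun_neg
        have h6 : -(-(P x * v x)) = -(P x * -v x) := by ring
        rw [h6] at h5
        exact h5) (by simpa using h)
      (fun x hx => by simpa using hmax hx) (by simp [hβ])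
  · exact key v v' hv hv' h (fun x hx => hmax hx) hβ

/-- monotone on a half line from the derivative -/
lemma mono_of {f f' : ℝ → ℝ} {S : ℝ} (hf : ∀ x, HasDerivAt f (f' x) x) (h : ∀ x, S ≤ x → 0 ≤ f' x)
    {x y : ℝ} (hx : S ≤ x) (hxy : x ≤ y) : f x ≤ f y := by
  have hm : MonotoneOn f (Ici S) := by
    apply monotoneOn_of_deriv_nonneg (convex_Ici S)
    · intro x _; exact (hf x).continuousAt.continuousWithinAt
    · intro x _; exact (hf x).differentiableAt.differentiableWithinAt
    · intro x hx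
      rw [interior_Ici] at hx
      rw [(hf x).deriv]
      exact h x (le_of_lt hx)
  exact hm hx (hx.trans hxy) hxy

/-- a bounded function with nonnegative second derivative on a half line is nonincreasing there -/
lemma convex_bdd {f f' f'' : ℝ → ℝ} {S B : ℝ} (hf : ∀ x, HasDerivAt f (f' x) x)
    (hf' : ∀ x, HasDerivAt f' (f'' x) x) (h : ∀ x, S ≤ x → 0 ≤ f'' x) (hB : ∀ x, S ≤ x → f x ≤ B)
    {x : ℝ} (hx : S ≤ x) : f' x ≤ 0 := by
  by_contra hcon
  push Not at hcon
  set δ := f' x with hδ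
  have h1 : ∀ y, x ≤ y → δ ≤ f' y := fun y hy => mono_of hf' h hx hy
  have h2 : ∀ y, x ≤ y → f x + δ * (y - x) ≤ f y := by
    intro y hy
    have hd : ∀ z, HasDerivAt (fun z => f z - δ * (z - x)) (f' z - δ * 1) z := fun z =>
      (hf z).fun_sub (((hasDerivAt_id z).sub_const x).const_mul δ)
    have := mono_of (f := fun z => f z - δ * (z - x)) (S := x) hd
      (fun z hz => by have := h1 z hz; linarith) le_rfl hy
    simp only [sub_self, mul_zero, sub_zero] at this
    linarith
  have h3 := h2 (x + (|B| + |f x| + 1) / δ) (by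
    have : 0 ≤ (|B| + |f x| + 1) / δ := by positivity
    linarith)
  have h4 := hB (x + (|B| + |f x| + 1) / δ) (by
    have : 0 ≤ (|B| + |f x| + 1) / δ := by positivity
    linarith)
  have h5 : δ * (x + (|B| + |f x| + 1) / δ - x) = |B| + |f x| + 1 := by
    field_simp
    ring
  rw [h5] at h3
  have := le_abs_self B
  have := neg_abs_le (f x)
  linarith

/-- derivatives of the square -/
lemma sq_deriv {w w' : ℝ → ℝ} {g : ℝ → ℝ} (hw : ∀ x, HasDerivAt w (w' x) x)
    (hw' : ∀ x, HasDerivAt w' (g x * w x) x) :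
    (∀ x, HasDerivAt (fun x => w x ^ 2) (2 * (w x * w' x)) x) ∧
    ∀ x, HasDerivAt (fun x => 2 * (w x * w' x)) (2 * (w' x ^ 2 + g x * w x ^ 2)) x := by
  constructor
  · intro x
    refine ((hw x).fun_pow 2).congr_deriv ?_
    push_cast
    ring
  · intro x
    refine (((hw x).fun_mul (hw' x)).const_mul 2).congr_deriv ?_
    ring

/-- exponential case: bounded solutions tend to zero -/
lemma decay {w w' g : ℝ → ℝ} {S B : ℝ} (hw : ∀ x, HasDerivAt w (w' x) x)
    (hw' : ∀ x, HasDerivAt w' (g x * w x) x) (hg : ∀ x, S ≤ x → 1 / 2 ≤ g x)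
    (hB : ∀ x, S ≤ x → |w x| ≤ B) :
    (∀ x y, S ≤ x → x ≤ y → w y ^ 2 ≤ w x ^ 2) ∧ Tendsto w atTop (𝓝 0) := by
  obtain ⟨d1, d2⟩ := sq_deriv hw hw'
  have hN : ∀ x, S ≤ x → 2 * (w x * w' x) ≤ 0 := fun x hx =>
    convex_bdd d1 d2 (fun x hx => by
      have := hg x hx
      have h2 : 0 ≤ g x * w x ^ 2 := mul_nonneg (by linarith) (sq_nonneg _)
      nlinarith [sq_nonneg (w' x)])
      (fun x hx => by
        have := hB x hx
        have h0 : 0 ≤ B := (abs_nonneg _).trans this
        show w x ^ 2 ≤ B ^ 2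
        rw [← sq_abs]
        exact pow_le_pow_left₀ (abs_nonneg _) this 2) hx
  have hanti : ∀ x y, S ≤ x → x ≤ y → w y ^ 2 ≤ w x ^ 2 := by
    intro x y hx hxy
    have := mono_of (f := fun x => -(w x ^ 2)) (f' := fun x => -(2 * (w x * w' x))) (S := S)
      (fun x => (d1 x).fun_neg) (fun x hx => by have := hN x hx; linarith) hx hxy
    linarith
  refine ⟨hanti, ?_⟩
  have hsmall : ∀ ε : ℝ, 0 < ε → ∃ x, S ≤ x ∧ w x ^ 2 < ε := by
    intro ε hε
    by_contra hcon
    push Not at hcon
    have h1 : ∀ y, S ≤ y → 2 * (w S * w' S) + ε * (y - S) ≤ 2 * (w y * w' y) := by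
      intro y hy
      have hd : ∀ z, HasDerivAt (fun z => 2 * (w z * w' z) - ε * (z - S))
          (2 * (w' z ^ 2 + g z * w z ^ 2) - ε * 1) z := fun z =>
        (d2 z).fun_sub (((hasDerivAt_id z).sub_const S).const_mul ε)
      have := mono_of (f := fun z => 2 * (w z * w' z) - ε * (z - S)) (S := S) hd (fun z hz => by
        have h2 := hcon z hz
        have h3 := hg z hz
        nlinarith [sq_nonneg (w' z)]) le_rfl hy
      simp only [sub_self, mul_zero, sub_zero] at this
      linarith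
    have h2 := h1 (S + (|2 * (w S * w' S)| + 1) / ε) (by
      have : 0 ≤ (|2 * (w S * w' S)| + 1) / ε := by positivity
      linarith)
    have h3 := hN (S + (|2 * (w S * w' S)| + 1) / ε) (by
      have : 0 ≤ (|2 * (w S * w' S)| + 1) / ε := by positivity
      linarith)
    have h4 : ε * (S + (|2 * (w S * w' S)| + 1) / ε - S) = |2 * (w S * w' S)| + 1 := by
      field_simp
      ring
    rw [h4] at h2
    have := neg_abs_le (2 * (w S * w' S))
    linarith
  rw [Metric.tendsto_atTop]
  intro ε hε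
  obtain ⟨x, hx, hxε⟩ := hsmall (ε ^ 2) (by positivity)
  refine ⟨x, fun y hy => ?_⟩
  rw [Real.dist_eq, sub_zero]
  have h1 := hanti x y hx hy
  exact abs_lt_of_sq_lt_sq (lt_of_le_of_lt h1 hxε) hε.le

/-- slowly varying case -/
lemma slow {w w' q : ℝ → ℝ} {Λ S B : ℝ} (hB0 : 0 ≤ B) (hw : ∀ x, HasDerivAt w (w' x) x)
    (hw' : ∀ x, HasDerivAt w' (-(q x * w x)) x) (hq0 : ∀ x, 0 ≤ q x) (hq : ∀ x, S ≤ x → q x ≤ Λ * Real.exp (-x))
    (hB : ∀ x, S ≤ x → |w x| ≤ B) :
    ∀ x, S ≤ x → |w' x| ≤ B * Λ * Real.exp (-x) := by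
  have hE : ∀ x, HasDerivAt (fun x : ℝ => B * Λ * Real.exp (-x)) (-(B * Λ * Real.exp (-x))) x := by
    intro x
    have h1 : HasDerivAt (fun x : ℝ => Real.exp (-x)) (Real.exp (-x) * (-1)) x := ((hasDerivAt_id x).neg).exp
    refine (h1.const_mul (B * Λ)).congr_deriv ?_
    ring
  have hqw : ∀ x, S ≤ x → |q x * w x| ≤ B * Λ * Real.exp (-x) := by
    intro x hx
    rw [abs_mul, abs_of_nonneg (hq0 x)]
    calc q x * |w x| ≤ (Λ * Real.exp (-x)) * B := by
          apply mul_le_mul (hq x hx) (hB x hx) (abs_nonneg _)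
          exact (hq0 x).trans (hq x hx)
      _ = _ := by ring
  -- general one-sided statement
  have key : ∀ (f f' : ℝ → ℝ), (∀ x, HasDerivAt f (f' x) x) → (∀ x, HasDerivAt f' (-(q x * f x)) x) →
      (∀ x, S ≤ x → |f x| ≤ B) → ∀ x, S ≤ x → f' x ≤ B * Λ * Real.exp (-x) := by
    intro f f' hf hf' hfB x hx
    have hqf : ∀ x, S ≤ x → |q x * f x| ≤ B * Λ * Real.exp (-x) := by
      intro x hx
      rw [abs_mul, abs_of_nonneg (hq0 x)]
      calc q x * |f x| ≤ (Λ * Real.exp (-x)) * B := by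
            apply mul_le_mul (hq x hx) (hfB x hx) (abs_nonneg _)
            exact (hq0 x).trans (hq x hx)
        _ = _ := by ring
    by_contra hcon
    push Not at hcon
    set δ := f' x - B * Λ * Real.exp (-x) with hδ
    have hδ0 : 0 < δ := by rw [hδ]; linarith
    have h1 : ∀ y, x ≤ y → δ ≤ f' y := by
      intro y hy
      have hd : ∀ z, HasDerivAt (fun z => f' z - B * Λ * Real.exp (-z))
          (-(q z * f z) - -(B * Λ * Real.exp (-z))) z := fun z => (hf' z).fun_sub (hE z)
      have h2 := mono_of (f := fun z => f' z - B * Λ * Real.exp (-z)) (S := S) hd (fun z hz => by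
        have := (abs_le.1 (hqf z hz)).2
        linarith) hx hy
      have h3 : 0 ≤ B * Λ * Real.exp (-y) := (abs_nonneg _).trans (hqf y (hx.trans hy))
      linarith
    have h2 : ∀ y, x ≤ y → f x + δ * (y - x) ≤ f y := by
      intro y hy
      have hd : ∀ z, HasDerivAt (fun z => f z - δ * (z - x)) (f' z - δ * 1) z := fun z =>
        (hf z).fun_sub (((hasDerivAt_id z).sub_const x).const_mul δ)
      have := mono_of (f := fun z => f z - δ * (z - x)) (S := x) hd
        (fun z hz => by have := h1 z hz; linarith) le_rfl hy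
      simp only [sub_self, mul_zero, sub_zero] at this
      linarith
    have hy : x ≤ x + (2 * B + 1) / δ := by
      have : 0 ≤ (2 * B + 1) / δ := by positivity
      linarith
    have h3 := h2 _ hy
    have h4 := (abs_le.1 (hfB _ (hx.trans hy))).2
    have h5 := (abs_le.1 (hfB x hx)).1
    have h6 : δ * (x + (2 * B + 1) / δ - x) = 2 * B + 1 := by
      field_simp
      ring
    rw [h6] at h3
    linarith
  intro x hx
  rw [abs_le]
  constructor
  · have := key (fun x => -w x) (fun x => -w' x) (fun x => (hw x).fun_neg)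
      (fun x => by
        have h5 := (hw' x).fun_neg
        have h6 : -(-(q x * w x)) = -(q x * -w x) := by ring
        rw [h6] at h5
        exact h5) (fun x hx => by rw [abs_neg]; exact hB x hx) x hx
    linarith
  · exact key w w' hw hw' hB x hx

end Pool.Agent.Q167.SR
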