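import Mathlib
import Pool.Agent.Q167.SR.One
set_option autoImplicit false

/-! # Behaviour at infinity -/

namespace Pool.Agent.Q167.SR

open Set Filter Topology
open Pool.Agent.Q167.LV

/-- the decay condition on `q` -/
def QD (Λ : ℝ) (q : ℝ → ℝ) : Prop := (∀ x, 0 ≤ q x) ∧ ∀ x, q x ≤ Λ * Real.exp (-|x|)

/-- bounded solutions of `w'' = (c - q) w`, `c = 0` or `c ≥ 1` -/
structure Bd (q : ℝ → ℝ) (c : ℝ) (w w' : ℝ → ℝ) : Prop where
  d1 : ∀ x, HasDerivAt w (w' x) x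
  d2 : ∀ x, HasDerivAt w' (-((q x - c) * w x)) x
  bdd : ∃ B, ∀ x, |w x| ≤ B
  hc : c = 0 ∨ 1 ≤ c

lemma QD.reflect {Λ : ℝ} {q : ℝ → ℝ} (h : QD Λ q) : QD Λ fun x => q (-x) :=
  ⟨fun x => h.1 _, fun x => by have := h.2 (-x); rwa [abs_neg] at this⟩

lemma Bd.reflect {q : ℝ → ℝ} {c : ℝ} {w w' : ℝ → ℝ} (h : Bd q c w w') :
    Bd (fun x => q (-x)) c (fun x => w (-x)) (fun x => -w' (-x)) where
  d1 x := by
    have := (h.d1 (-x)).comp x (hasDerivAt_neg x)
    refine this.congr_deriv ?_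
    ring
  d2 x := by
    have := ((h.d2 (-x)).comp x (hasDerivAt_neg x)).fun_neg
    refine this.congr_deriv ?_
    ring
  bdd := by
    obtain ⟨B, hB⟩ := h.bdd
    exact ⟨B, fun x => hB _⟩
  hc := h.hc

lemma Bd.neg {q : ℝ → ℝ} {c : ℝ} {w w' : ℝ → ℝ} (h : Bd q c w w') :
    Bd q c (fun x => -w x) (fun x => -w' x) where
  d1 x := (h.d1 x).fun_neg
  d2 x := by
    refine ((h.d2 x).fun_neg).congr_deriv ?_
    ring
  bdd := by
    obtain ⟨B, hB⟩ := h.bdd
    exact ⟨B, fun x => by rw [abs_neg]; exact hB x⟩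
  hc := h.hc

lemma QD.small {Λ : ℝ} {q : ℝ → ℝ} (h : QD Λ q) {S : ℝ} (hS0 : 0 ≤ S)
    (hS : Λ * Real.exp (-S) ≤ 1 / 2) {x : ℝ} (hx : S ≤ x) : q x ≤ 1 / 2 := by
  have hΛ : 0 ≤ Λ := by
    have h1 := (h.1 0).trans (h.2 0)
    simpa using h1
  have h1 := h.2 x
  rw [abs_of_nonneg (hS0.trans hx)] at h1
  have h2 : Real.exp (-x) ≤ Real.exp (-S) := Real.exp_le_exp.2 (by linarith)
  have h3 := mul_le_mul_of_nonneg_left h2 hΛ
  linarith

lemma exp_deriv (k x : ℝ) : HasDerivAt (fun x : ℝ => k * Real.exp (-x)) (-(k * Real.exp (-x))) x := by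
  have h1 : HasDerivAt (fun x : ℝ => Real.exp (-x)) (Real.exp (-x) * (-1)) x := ((hasDerivAt_id x).neg).exp
  refine (h1.const_mul k).congr_deriv ?_
  ring

lemma Bd.anti {q : ℝ → ℝ} {Λ c : ℝ} {w w' : ℝ → ℝ} (hq : QD Λ q) (h : Bd q c w w') (hc : 1 ≤ c)
    {S : ℝ} (hS0 : 0 ≤ S) (hS : Λ * Real.exp (-S) ≤ 1 / 2) :
    (∀ x y, S ≤ x → x ≤ y → w y ^ 2 ≤ w x ^ 2) ∧ Tendsto w atTop (𝓝 0) := by
  obtain ⟨B, hB⟩ := h.bdd
  exact decay (g := fun x => c - q x) h.d1 (fun x => by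
    refine (h.d2 x).congr_deriv ?_
    ring) (fun x hx => by have := hq.small hS0 hS hx; linarith) (fun x _ => hB x)

lemma exists_S (Λ : ℝ) : ∃ S : ℝ, 0 ≤ S ∧ Λ * Real.exp (-S) ≤ 1 / 2 := by
  have h1 : Tendsto (fun S : ℝ => Λ * Real.exp (-S)) atTop (𝓝 (Λ * 0)) :=
    (Real.tendsto_exp_neg_atTop_nhds_zero).const_mul Λ
  rw [mul_zero] at h1
  obtain ⟨S, hS1, hS2⟩ := ((eventually_ge_atTop (0 : ℝ)).and (h1.eventually (gt_mem_nhds (show (0 : ℝ) < 1 / 2 by norm_num)))).exists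
  exact ⟨S, hS1, hS2.le⟩

/-- limits at infinity -/
lemma Bd.limit {q : ℝ → ℝ} {Λ c : ℝ} {w w' : ℝ → ℝ} (hq : QD Λ q) (h : Bd q c w w') :
    ∃ a, Tendsto w atTop (𝓝 a) ∧ (1 ≤ c → a = 0) := by
  rcases h.hc with hc | hc
  · subst hc
    obtain ⟨B, hB⟩ := h.bdd
    have hB0 : 0 ≤ B := (abs_nonneg _).trans (hB 0)
    have hs := slow (S := 0) (Λ := Λ) hB0 h.d1 (fun x => by
      refine (h.d2 x).congr_deriv ?_
      ring) hq.1 (fun x hx => by have := hq.2 x; rwa [abs_of_nonneg hx] at this) (fun x _ => hB x)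
    have hmono : Monotone fun x => w (max x 0) - B * Λ * Real.exp (-(max x 0)) := by
      intro x y hxy
      have hd : ∀ z, HasDerivAt (fun z => w z - B * Λ * Real.exp (-z)) (w' z - -(B * Λ * Real.exp (-z))) z :=
        fun z => (h.d1 z).fun_sub (exp_deriv (B * Λ) z)
      exact mono_of (f := fun z => w z - B * Λ * Real.exp (-z)) (S := 0) hd
        (fun z hz => by have := (abs_le.1 (hs z hz)).1; linarith) (le_max_right x 0) (max_le_max_right 0 hxy)
    have hbdd : BddAbove (range fun x => w (max x 0) - B * Λ * Real.exp (-(max x 0))) := by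
      refine ⟨B, ?_⟩
      rintro _ ⟨x, rfl⟩
      have h1 := (abs_le.1 (hB (max x 0))).2
      have h2 : 0 ≤ B * Λ * Real.exp (-(max x 0)) := (abs_nonneg _).trans (hs _ (le_max_right x 0))
      simp only
      linarith
    have hlim := tendsto_atTop_ciSup hmono hbdd
    have hE : Tendsto (fun x : ℝ => B * Λ * Real.exp (-x)) atTop (𝓝 (B * Λ * 0)) :=
      (Real.tendsto_exp_neg_atTop_nhds_zero).const_mul _
    have h3 := hlim.add hE
    refine ⟨_, h3.congr' ?_, fun h => by norm_num at h⟩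
    filter_upwards [eventually_ge_atTop (0 : ℝ)] with x hx
    rw [max_eq_left hx]
    ring
  · obtain ⟨S, hS0, hS⟩ := exists_S Λ
    exact ⟨0, (h.anti hq hc hS0 hS).2, fun _ => rfl⟩

lemma eq_zero_contra {w w' : ℝ → ℝ} (hw : ∀ x, HasDerivAt w (w' x) x)
    (hs : ∀ x, w x = 0 → w' x ≠ 0) {x₁ : ℝ} (h : ∀ y, x₁ ≤ y → w y = 0) : False := by
  have h1 : w =ᶠ[𝓝 (x₁ + 1)] fun _ => 0 := by
    filter_upwards [isOpen_Ioi.mem_nhds (show x₁ + 1 ∈ Ioi x₁ from by simp)] with y hy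
    exact h y (le_of_lt hy)
  exact hs _ (h _ (by linarith)) ((hw _).unique ((hasDerivAt_const _ (0 : ℝ)).congr_of_eventuallyEq h1))

/-- no zeros far away -/
lemma Bd.no_zero {q : ℝ → ℝ} {Λ c : ℝ} {w w' : ℝ → ℝ} (hq : QD Λ q) (h : Bd q c w w')
    (hs : ∀ x, w x = 0 → w' x ≠ 0) {S : ℝ} (hS0 : 0 ≤ S) (hS : Λ * Real.exp (-S) ≤ 1 / 2)
    {x₁ : ℝ} (hx₁ : S ≤ x₁) : w x₁ ≠ 0 := by
  intro h0
  rcases h.hc with hc | hc
  · subst hc
    obtain ⟨B, hB⟩ := h.bdd
    have hΛ : 0 ≤ Λ := by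
      have h1 := (hq.1 0).trans (hq.2 0)
      simpa using h1
    have hB0 : 0 ≤ B := (abs_nonneg _).trans (hB 0)
    have hx₁0 : 0 ≤ x₁ := hS0.trans hx₁
    have hex : Λ * Real.exp (-x₁) ≤ 1 / 2 := by
      have h2 : Real.exp (-x₁) ≤ Real.exp (-S) := Real.exp_le_exp.2 (by linarith)
      have h3 := mul_le_mul_of_nonneg_left h2 hΛ
      linarith
    have hn : ∀ n : ℕ, ∀ y, x₁ ≤ y → |w y| ≤ B / 2 ^ n := by
      intro n
      induction n with
      | zero => intro y _; simpa using hB y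
      | succ n ih =>
        have hBn : 0 ≤ B / 2 ^ n := by positivity
        have hsl := slow (S := x₁) (Λ := Λ) hBn h.d1 (fun x => by
          refine (h.d2 x).congr_deriv ?_
          ring) hq.1 (fun x hx => by
            have := hq.2 x
            rwa [abs_of_nonneg (hx₁0.trans hx)] at this) ih
        intro y hy
        have hb : B / 2 ^ n * Λ * Real.exp (-x₁) ≤ B / 2 ^ (n + 1) := by
          have h1 : B / 2 ^ n * (Λ * Real.exp (-x₁)) ≤ B / 2 ^ n * (1 / 2) := mul_le_mul_of_nonneg_left hex hBn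
          calc _ = B / 2 ^ n * (Λ * Real.exp (-x₁)) := by ring
            _ ≤ _ := h1
            _ = _ := by rw [pow_succ]; field_simp
        have hpos : 0 ≤ B / 2 ^ n * Λ * Real.exp (-y) := by positivity
        rw [abs_le]
        constructor
        · have := mono_of (f := fun z => w z - B / 2 ^ n * Λ * Real.exp (-z)) (S := x₁)
            (fun z => (h.d1 z).fun_sub (exp_deriv (B / 2 ^ n * Λ) z))
            (fun z hz => by have := (abs_le.1 (hsl z hz)).1; linarith) le_rfl hy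
          simp only [h0] at this
          linarith
        · have := mono_of (f := fun z => -w z - B / 2 ^ n * Λ * Real.exp (-z)) (S := x₁)
            (fun z => ((h.d1 z).fun_neg).fun_sub (exp_deriv (B / 2 ^ n * Λ) z))
            (fun z hz => by have := (abs_le.1 (hsl z hz)).2; linarith) le_rfl hy
          simp only [h0] at this
          linarith
    refine eq_zero_contra h.d1 hs (x₁ := x₁) fun y hy => ?_
    have hlim : Tendsto (fun n : ℕ => B / 2 ^ n) atTop (𝓝 0) := by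
      have := (tendsto_pow_atTop_nhds_zero_of_lt_one (show (0 : ℝ) ≤ 1 / 2 by norm_num) (by norm_num)).const_mul B
      rw [mul_zero] at this
      refine this.congr fun n => ?_
      rw [one_div, inv_pow]; rfl
    have := ge_of_tendsto' hlim (fun n => hn n y hy)
    exact abs_eq_zero.1 (le_antisymm this (abs_nonneg _))
  · refine eq_zero_contra h.d1 hs (x₁ := x₁) fun y hy => ?_
    have := (h.anti hq hc hS0 hS).1 x₁ y hx₁ hy
    rw [h0] at this
    have h2 : w y ^ 2 = 0 := le_antisymm (by simpa using this) (sq_nonneg _)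
    exact pow_eq_zero_iff two_ne_zero |>.1 h2

/-- comparison of two solutions at infinity -/
lemma compare_pos {q : ℝ → ℝ} {Λ c₀ c : ℝ} {U U' W W' : ℝ → ℝ} (hq : QD Λ q) (hU : Bd q c₀ U U')
    (hW : Bd q c W W') (hc : c₀ < c) {S : ℝ} (hS0 : 0 ≤ S) (hS : Λ * Real.exp (-S) ≤ 1 / 2)
    (hpos : ∀ x, S ≤ x → 0 < U x) : ∀ x, S ≤ x → W x ≤ |W S| / U S * U x := by
  have hc1 : 1 ≤ c := by
    rcases hW.hc with h | h
    · rcases hU.hc with h' | h'
      · rw [h, h'] at hc; exact absurd hc (lt_irrefl _)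
      · rw [h] at hc; linarith
    · exact h
  set C := |W S| / U S with hC
  have hUS := hpos S le_rfl
  have hC0 : 0 ≤ C := div_nonneg (abs_nonneg _) hUS.le
  obtain ⟨a, ha, -⟩ := hU.limit hq
  obtain ⟨b, hb, hb0⟩ := hW.limit hq
  rw [hb0 hc1] at hb
  have ha0 : 0 ≤ a := ge_of_tendsto ha (by
    filter_upwards [eventually_ge_atTop S] with x hx
    exact (hpos x hx).le)
  by_contra hcon
  push Not at hcon
  obtain ⟨x₁, hx₁, hx₁'⟩ := hcon
  set g : ℝ → ℝ := fun x => C * U x - W x with hg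
  have hgx₁ : g x₁ < 0 := by simp only [hg]; linarith
  have hgS : 0 ≤ g S := by
    simp only [hg, hC]
    rw [div_mul_cancel₀ _ hUS.ne']
    have := le_abs_self (W S)
    linarith
  have hglim : Tendsto g atTop (𝓝 (C * a - 0)) := (ha.const_mul C).sub hb
  have hCa : 0 ≤ C * a := mul_nonneg hC0 ha0
  obtain ⟨R, hR1, hR2⟩ := ((eventually_ge_atTop x₁).and (hglim.eventually (lt_mem_nhds (show g x₁ < C * a - 0 by linarith)))).exists
  have d1 : ∀ x, HasDerivAt g (C * U' x - W' x) x := fun x => ((hU.d1 x).const_mul C).fun_sub (hW.d1 x)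
  have d2 : ∀ x, HasDerivAt (fun x => C * U' x - W' x) (C * -((q x - c₀) * U x) - -((q x - c) * W x)) x :=
    fun x => ((hU.d2 x).const_mul C).fun_sub (hW.d2 x)
  have hgc : Continuous g := continuous_iff_continuousAt.2 fun x => (d1 x).continuousAt
  obtain ⟨s, hs, hmin⟩ := isCompact_Icc.exists_isMinOn (s := Icc S R) ⟨x₁, hx₁, hR1⟩ hgc.continuousOn
  have hsle : g s ≤ g x₁ := hmin (show x₁ ∈ Icc S R from ⟨hx₁, hR1⟩)
  have hs1 : S < s := lt_of_le_of_ne hs.1 (fun e => by rw [← e] at hsle; linarith)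
  have hs2 : s < R := lt_of_le_of_ne hs.2 (fun e => by rw [e] at hsle; linarith)
  have hloc : IsLocalMin g s := hmin.isLocalMin (Icc_mem_nhds hs1 hs2)
  have h3 := sd_min d1 (d2 s) hloc
  have h4 : C * -((q s - c₀) * U s) - -((q s - c) * W s) = (c - q s) * g s - C * ((c - c₀) * U s) := by
    simp only [hg]; ring
  rw [h4] at h3
  have h5 : 0 ≤ C * ((c - c₀) * U s) := mul_nonneg hC0 (mul_nonneg (by linarith) (hpos s hs.1).le)
  have h6 := hq.small hS0 hS hs.1
  have h7 : (c - q s) * g s < 0 := mul_neg_of_pos_of_neg (by linarith) (by linarith)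
  linarith

lemma compare {q : ℝ → ℝ} {Λ c₀ c : ℝ} {U U' W W' : ℝ → ℝ} (hq : QD Λ q) (hU : Bd q c₀ U U')
    (hW : Bd q c W W') (hc : c₀ < c) {S : ℝ} (hS0 : 0 ≤ S) (hS : Λ * Real.exp (-S) ≤ 1 / 2)
    (hs : ∀ x, U x = 0 → U' x ≠ 0) : ∃ C, ∀ x, S ≤ x → |W x| ≤ C * |U x| := by
  have hne : ∀ x, S ≤ x → U x ≠ 0 := fun x hx => hU.no_zero hq hs hS0 hS hx
  have key : ∀ (U U' : ℝ → ℝ), Bd q c₀ U U' → (∀ x, S ≤ x → U x ≠ 0) → 0 < U S →
      ∃ C, ∀ x, S ≤ x → |W x| ≤ C * |U x| := by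
    intro U U' hU hne hUS
    have hUc : Continuous U := continuous_iff_continuousAt.2 fun x => (hU.d1 x).continuousAt
    have hpos : ∀ x, S ≤ x → 0 < U x := by
      intro x hx
      by_contra hcon
      push Not at hcon
      obtain ⟨r, hr, hr0⟩ := intermediate_value_Icc' hx hUc.continuousOn
        (show (0 : ℝ) ∈ Icc (U x) (U S) from ⟨hcon, hUS.le⟩)
      exact hne r hr.1 hr0
    refine ⟨|W S| / U S, fun x hx => ?_⟩
    rw [abs_of_pos (hpos x hx), abs_le]
    constructor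
    · have := compare_pos hq hU hW.neg hc hS0 hS hpos x hx
      rw [abs_neg] at this
      linarith
    · exact compare_pos hq hU hW hc hS0 hS hpos x hx
  rcases lt_or_gt_of_ne (hne S le_rfl) with h | h
  · obtain ⟨C, hC⟩ := key _ _ hU.neg (fun x hx => neg_ne_zero.2 (hne x hx)) (by simpa using h)
    exact ⟨C, fun x hx => by have := hC x hx; rwa [abs_neg] at this⟩
  · exact key U U' hU hne h

end Pool.Agent.Q167.SR
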