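import Mathlib
import Pool.Agent.Q167.SR.Two
set_option autoImplicit false

/-! # Zeros on the line -/

namespace Pool.Agent.Q167.SR

open Set Filter Topology
open Pool.Agent.Q167.LV

/-- `u` has `n` zeros -/
def ZL (u : ℝ → ℝ) (n : ℕ) : Prop :=
  ∃ t : ℕ → ℝ, (∀ i, i + 1 < n → t i < t (i + 1)) ∧ ∀ i < n, u (t i) = 0

section step

variable {u u' u'' Q v : ℝ → ℝ}

lemma ext_pos (hu : ∀ x, HasDerivAt u (u' x) x) (hu' : ∀ x, HasDerivAt u' (u'' x) x)
    (hvd : ∀ x, v x = -u'' x + Q x * u x) (hQ : ∀ x, 0 < Q x) {y : ℝ} (hne : u y ≠ 0)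
    (hmax : ∀ᶠ x in 𝓝 y, |u x| ≤ |u y|) : 0 < u y * v y := by
  have hq := hQ y
  rcases lt_or_gt_of_ne hne with h | h
  · have hloc : IsLocalMin u y := by
      filter_upwards [hmax] with x hx
      rw [abs_of_neg h] at hx
      have := neg_abs_le (u x)
      linarith
    have h3 := sd_min hu (hu' y) hloc
    have h4 : v y < 0 := by rw [hvd]; nlinarith
    exact mul_pos_of_neg_of_neg h h4
  · have hloc : IsLocalMax u y := by
      filter_upwards [hmax] with x hx
      rw [abs_of_pos h] at hx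
      have := le_abs_self (u x)
      linarith
    have h3 := sd_max hu (hu' y) hloc
    have h4 : 0 < v y := by rw [hvd]; nlinarith
    exact mul_pos h h4

lemma inner_point (hu : ∀ x, HasDerivAt u (u' x) x) (hu' : ∀ x, HasDerivAt u' (u'' x) x)
    (hvd : ∀ x, v x = -u'' x + Q x * u x) (hQ : ∀ x, 0 < Q x) {a b x₁ : ℝ} (hx₁ : x₁ ∈ Icc a b)
    (hne : u x₁ ≠ 0) (ha : |u a| < |u x₁|) (hb : |u b| < |u x₁|) :
    ∃ s, a < s ∧ s < b ∧ 0 < u s * v s := by
  obtain ⟨y, hy, hmax⟩ := isCompact_Icc.exists_isMaxOn (s := Icc a b) ⟨x₁, hx₁⟩ (f := fun x => |u x|)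
    (fun x _ => ((hu x).continuousAt.abs).continuousWithinAt)
  have h1 : |u x₁| ≤ |u y| := hmax hx₁
  have hya : a < y := lt_of_le_of_ne hy.1 (fun e => by rw [← e] at h1; linarith)
  have hyb : y < b := lt_of_le_of_ne hy.2 (fun e => by rw [e] at h1; linarith)
  have hpos : 0 < |u y| := lt_of_lt_of_le (abs_pos.2 hne) h1
  refine ⟨y, hya, hyb, ext_pos hu hu' hvd hQ (abs_pos.1 hpos) ?_⟩
  filter_upwards [Icc_mem_nhds hya hyb] with x hx
  exact hmax hx

lemma end_point (hu : ∀ x, HasDerivAt u (u' x) x) (hu' : ∀ x, HasDerivAt u' (u'' x) x)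
    (hvd : ∀ x, v x = -u'' x + Q x * u x) (hQ : ∀ x, 0 < Q x) {a M : ℝ} (hM : 0 < M)
    (hua : Tendsto u atTop (𝓝 a)) (hva : Tendsto v atTop (𝓝 (M * a))) {c : ℝ} (hc : u c = 0)
    (hne : ∃ x, c < x ∧ u x ≠ 0) : ∃ s, c < s ∧ 0 < u s * v s := by
  by_cases ha : a = 0
  · obtain ⟨x₁, hx₁, hne1⟩ := hne
    have h1 : Tendsto (fun x => |u x|) atTop (𝓝 0) := by
      have := hua.abs
      rwa [ha, abs_zero] at this
    obtain ⟨R, hR1, hR2⟩ := ((eventually_ge_atTop x₁).and (h1.eventually (gt_mem_nhds (abs_pos.2 hne1)))).exists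
    obtain ⟨s, hs1, -, hs3⟩ := inner_point hu hu' hvd hQ (a := c) (b := R) (x₁ := x₁) ⟨hx₁.le, hR1⟩ hne1
      (by rw [hc, abs_zero]; exact abs_pos.2 hne1) hR2
    exact ⟨s, hs1, hs3⟩
  · have h1 : Tendsto (fun x => u x * v x) atTop (𝓝 (a * (M * a))) := hua.mul hva
    have h2 : 0 < a * (M * a) := by
      have : 0 < a * a := mul_self_pos.2 ha
      nlinarith
    obtain ⟨s, hs1, hs2⟩ := ((eventually_gt_atTop c).and (h1.eventually (lt_mem_nhds h2))).exists
    exact ⟨s, hs1, hs2⟩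

lemma end_point' (hu : ∀ x, HasDerivAt u (u' x) x) (hu' : ∀ x, HasDerivAt u' (u'' x) x)
    (hvd : ∀ x, v x = -u'' x + Q x * u x) (hQ : ∀ x, 0 < Q x) {a M : ℝ} (hM : 0 < M)
    (hua : Tendsto u atBot (𝓝 a)) (hva : Tendsto v atBot (𝓝 (M * a))) {c : ℝ} (hc : u c = 0)
    (hne : ∃ x, x < c ∧ u x ≠ 0) : ∃ s, s < c ∧ 0 < u s * v s := by
  obtain ⟨x, hx, hxne⟩ := hne
  obtain ⟨s, hs1, hs2⟩ := end_point (u := fun x => u (-x)) (u' := fun x => -u' (-x)) (u'' := fun x => u'' (-x))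
    (Q := fun x => Q (-x)) (v := fun x => v (-x)) (fun x => by
      refine ((hu (-x)).comp x (hasDerivAt_neg x)).congr_deriv ?_
      ring) (fun x => by
      refine (((hu' (-x)).comp x (hasDerivAt_neg x)).fun_neg).congr_deriv ?_
      ring) (fun x => hvd (-x)) (fun x => hQ (-x)) hM (hua.comp tendsto_neg_atTop_atBot)
      (hva.comp tendsto_neg_atTop_atBot) (c := -c) (by simpa using hc) ⟨-x, by linarith, by simpa using hxne⟩
  exact ⟨-s, by linarith, hs2⟩

lemma stepL (hu : ∀ x, HasDerivAt u (u' x) x) (hu' : ∀ x, HasDerivAt u' (u'' x) x)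
    (hv : Continuous v) (hvd : ∀ x, v x = -u'' x + Q x * u x) (hQ : ∀ x, 0 < Q x) {a b M : ℝ} (hM : 0 < M)
    (hua : Tendsto u atTop (𝓝 a)) (hva : Tendsto v atTop (𝓝 (M * a)))
    (hub : Tendsto u atBot (𝓝 b)) (hvb : Tendsto v atBot (𝓝 (M * b)))
    (hne : ∀ a b, a < b → ∃ x ∈ Ioo a b, u x ≠ 0) {n : ℕ} (h : ZL u n) : ZL v n := by
  obtain ⟨t, ht, ht0⟩ := h
  have hex : ∀ i, i ≤ n → 0 < n → ∃ s, (0 < i → t (i - 1) < s) ∧ (i < n → s < t i) ∧ 0 < u s * v s := by
    intro i hi hn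
    rcases Nat.eq_zero_or_pos i with h0 | h0
    · subst h0
      obtain ⟨x, hx, hxne⟩ := hne (t 0 - 1) (t 0) (by linarith)
      obtain ⟨s, hs1, hs2⟩ := end_point' hu hu' hvd hQ hM hub hvb (ht0 0 hn) ⟨x, hx.2, hxne⟩
      exact ⟨s, fun h => absurd h (lt_irrefl _), fun _ => hs1, hs2⟩
    · rcases lt_or_eq_of_le hi with h1 | h1
      · have hlt : t (i - 1) < t i := by
          have := ht (i - 1) (by omega)
          rwa [Nat.sub_add_cancel h0] at this
        obtain ⟨x, hx, hxne⟩ := hne _ _ hlt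
        obtain ⟨s, hs1, hs2, hs3⟩ := inner_point hu hu' hvd hQ (a := t (i - 1)) (b := t i) (x₁ := x)
          ⟨hx.1.le, hx.2.le⟩ hxne (by rw [ht0 (i - 1) (by omega), abs_zero]; exact abs_pos.2 hxne)
          (by rw [ht0 i h1, abs_zero]; exact abs_pos.2 hxne)
        exact ⟨s, fun _ => hs1, fun _ => hs2, hs3⟩
      · obtain ⟨x, hx, hxne⟩ := hne (t (i - 1)) (t (i - 1) + 1) (by linarith)
        obtain ⟨s, hs1, hs2⟩ := end_point hu hu' hvd hQ hM hua hva (ht0 (i - 1) (by omega)) ⟨x, hx.1, hxne⟩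
        exact ⟨s, fun _ => hs1, fun h => by omega, hs2⟩
  rcases Nat.eq_zero_or_pos n with hn | hn
  · subst hn
    exact ⟨t, fun i hi => by omega, fun i hi => by omega⟩
  choose! s hs1 hs2 hs3 using hex
  have hr : ∀ i, i < n → ∃ r, s i < r ∧ r < s (i + 1) ∧ v r = 0 := by
    intro i hi
    have h1 := hs2 i hi.le hn hi
    have h2 := hs1 (i + 1) hi hn (Nat.succ_pos i)
    rw [Nat.add_sub_cancel] at h2
    exact zero_between' hu hu' hv hvd hQ h1 h2 (ht0 i hi) (hs3 i hi.le hn) (hs3 (i + 1) hi hn)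
  choose! r hr1 hr2 hr3 using hr
  exact ⟨r, fun i hi => (hr2 i (by omega)).trans (hr1 (i + 1) hi), hr3⟩

end step

lemma limitL {n : ℕ} {S : ℝ} {v v' : ℝ → ℝ} {w w' : ℕ → ℝ → ℝ}
    (hw : ∀ m x, HasDerivAt (w m) (w' m x) x)
    (hlim : ∀ (φ : ℕ → ℕ) (x : ℕ → ℝ) (a : ℝ), Tendsto φ atTop atTop → Tendsto x atTop (𝓝 a) →
      Tendsto (fun m => w (φ m) (x m)) atTop (𝓝 (v a)))
    (hlim' : ∀ (φ : ℕ → ℕ) (x : ℕ → ℝ) (a : ℝ), Tendsto φ atTop atTop → Tendsto x atTop (𝓝 a) →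
      Tendsto (fun m => w' (φ m) (x m)) atTop (𝓝 (v' a)))
    (hz : ∀ m, ∃ t : ℕ → ℝ, (∀ i, i + 1 < n → t i < t (i + 1)) ∧ ∀ i < n, w m (t i) = 0 ∧ |t i| ≤ S)
    (hs : ∀ x, v x = 0 → v' x ≠ 0) : ZL v n := by
  choose t ht htz using hz
  obtain ⟨a, -, ψ, hψ, ha⟩ := (isCompact_univ_pi (fun _ : Fin n => isCompact_Icc (a := -S) (b := S))).tendsto_subseq
    (x := fun m (i : Fin n) => t m i) (fun m i _ => by
      have := (htz m i i.2).2
      exact ⟨(abs_le.1 this).1, (abs_le.1 this).2⟩)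
  have hψt : Tendsto ψ atTop atTop := hψ.tendsto_atTop
  let T : ℕ → ℝ := fun i => if h : i < n then a ⟨i, h⟩ else 0
  have hT : ∀ i (h : i < n), Tendsto (fun m => t (ψ m) i) atTop (𝓝 (T i)) := by
    intro i h
    have := (tendsto_pi_nhds.1 ha) ⟨i, h⟩
    simp only [T, dif_pos h]
    exact this
  have hzero : ∀ i < n, v (T i) = 0 := by
    intro i hi
    have h1 := hlim ψ (fun m => t (ψ m) i) (T i) hψt (hT i hi)
    have h2 : (fun m => w (ψ m) (t (ψ m) i)) = fun _ => 0 := by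
      ext m; exact (htz _ _ hi).1
    rw [h2] at h1
    exact tendsto_nhds_unique h1 tendsto_const_nhds
  refine ⟨T, ?_, hzero⟩
  intro i hi
  have hi0 : i < n := by omega
  have hle : T i ≤ T (i + 1) :=
    le_of_tendsto_of_tendsto' (hT i hi0) (hT (i + 1) hi) fun m => (ht (ψ m) i hi).le
  rcases lt_or_eq_of_le hle with h | h
  · exact h
  · exfalso
    have hR : ∀ m, ∃ c ∈ Ioo (t (ψ m) i) (t (ψ m) (i + 1)), w' (ψ m) c = 0 := by
      intro m
      apply exists_hasDerivAt_eq_zero (ht (ψ m) i hi)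
        (fun x _ => (hw (ψ m) x).continuousAt.continuousWithinAt)
      · rw [(htz _ _ hi0).1, (htz _ _ hi).1]
      · intro x _; exact hw _ x
    choose c hc hc0 using hR
    have hct : Tendsto c atTop (𝓝 (T i)) := by
      refine tendsto_of_tendsto_of_tendsto_of_le_of_le (hT i hi0) ?_ (fun m => (hc m).1.le) (fun m => (hc m).2.le)
      rw [h]
      exact hT (i + 1) hi
    have h1 := hlim' ψ c (T i) hψt hct
    have h2 : (fun m => w' (ψ m) (c m)) = fun _ => 0 := by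
      ext m; exact hc0 m
    rw [h2] at h1
    exact hs _ (hzero i hi0) (tendsto_nhds_unique h1 tendsto_const_nhds)

lemma exp_small {Λ : ℝ} (hΛ : 0 < Λ) : Λ * Real.exp (-(2 * √Λ)) ≤ 1 / 2 := by
  have h1 : 1 + 2 * √Λ + (2 * √Λ) ^ 2 / 2 ≤ Real.exp (2 * √Λ) :=
    Real.quadratic_le_exp_of_nonneg (by positivity)
  have h2 : √Λ ^ 2 = Λ := Real.sq_sqrt hΛ.le
  have h3 : 2 * Λ ≤ Real.exp (2 * √Λ) := by
    have := Real.sqrt_nonneg Λ
    nlinarith
  rw [Real.exp_neg, ← div_eq_mul_inv, div_le_iff₀ (Real.exp_pos _)]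
  linarith

lemma count_pos {q : ℝ → ℝ} {Λ c : ℝ} {U U' : ℝ → ℝ} (hΛ : 0 < Λ) (hq : QD Λ q) (hU : Bd q c U U')
    (hs : ∀ x, U x = 0 → U' x ≠ 0) {n : ℕ} {t : ℕ → ℝ} (ht : ∀ i, i + 1 < n → t i < t (i + 1))
    (h : ∀ i < n, 0 ≤ t i ∧ U (t i) = 0) : (n : ℝ) ≤ 1 + 5 * √Λ := by
  rcases Nat.eq_zero_or_pos n with hn | hn
  · subst hn
    have := Real.sqrt_nonneg Λ
    simp only [Nat.cast_zero]
    linarith
  set S := 2 * √Λ with hS
  have hS0 : 0 ≤ S := by positivity
  have hc0 : 0 ≤ c := by rcases hU.hc with h | h <;> linarith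
  have htS : ∀ i < n, t i < S := by
    intro i hi
    by_contra hcon
    push Not at hcon
    exact hU.no_zero hq hs hS0 (exp_small hΛ) hcon (h i hi).2
  set G : ℝ → ℝ := fun x => x - 3 * √Λ * Real.exp (-(x / 2)) with hG
  have hstep : ∀ i, i + 1 < n → 1 ≤ G (t (i + 1)) - G (t i) := by
    intro i hi
    have hlt := ht i hi
    have h0 := (h i (by omega)).1
    set g := t (i + 1) - t i with hg
    have hg0 : 0 < g := by rw [hg]; linarith
    set K := √Λ * Real.exp (-(t i / 2)) with hK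
    have hK0 : 0 < K := by positivity
    have hK2 : K ^ 2 = Λ * Real.exp (-(t i)) := by
      rw [hK, mul_pow, Real.sq_sqrt hΛ.le, ← Real.exp_nat_mul]
      congr 2
      push_cast
      ring
    have hgap := gap' (P := fun x => q x - c) hK0 hU.d1 hU.d2 hs (α := t i) (β := t (i + 1)) (fun x hx => by
      have h1 := hq.2 x
      rw [abs_of_nonneg (h0.trans hx.1)] at h1
      have h2 : Real.exp (-x) ≤ Real.exp (-(t i)) := Real.exp_le_exp.2 (by linarith [hx.1])
      have h3 := mul_le_mul_of_nonneg_left h2 hΛ.le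
      rw [hK2]
      linarith) hlt (h i (by omega)).2 (h (i + 1) hi).2
    have hexp : Real.exp (-(t (i + 1) / 2)) = Real.exp (-(t i / 2)) * Real.exp (-(g / 2)) := by
      rw [← Real.exp_add]
      congr 1
      rw [hg]; ring
    have e1 : G (t (i + 1)) - G (t i) = g + 3 * K * (1 - Real.exp (-(g / 2))) := by
      simp only [hG, hK]
      rw [hexp, hg]; ring
    rw [e1]
    rcases le_or_gt 1 g with hg1 | hg1
    · have h3 : Real.exp (-(g / 2)) ≤ 1 := Real.exp_le_one_iff.2 (by linarith)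
      have h4 : 0 ≤ 3 * K * (1 - Real.exp (-(g / 2))) := mul_nonneg (by positivity) (by linarith)
      linarith
    · -- 1 - e^{-g/2} ≥ g/3
      have h3 : g / 3 ≤ 1 - Real.exp (-(g / 2)) := by
        have h4 : 1 + g / 2 + (g / 2) ^ 2 / 2 ≤ Real.exp (g / 2) := Real.quadratic_le_exp_of_nonneg (by linarith)
        have h5 : Real.exp (-(g / 2)) * Real.exp (g / 2) = 1 := by rw [← Real.exp_add]; simp
        have h6 := Real.exp_pos (-(g / 2))
        have h7 : Real.exp (-(g / 2)) * (1 + g / 2) ≤ 1 := by nlinarith [sq_nonneg g]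
        have h8 : 1 ≤ (1 - g / 3) * (1 + g / 2) := by nlinarith
        have h9 : Real.exp (-(g / 2)) ≤ 1 - g / 3 := by
          by_contra hcon
          push Not at hcon
          nlinarith
        linarith
      have h4 : 3 * K * (g / 3) ≤ 3 * K * (1 - Real.exp (-(g / 2))) :=
        mul_le_mul_of_nonneg_left h3 (by positivity)
      have h5 : 3 * K * (g / 3) = K * g := by ring
      linarith
  have hind : ∀ i, i < n → (i : ℝ) ≤ G (t i) - G (t 0) := by
    intro i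
    induction i with
    | zero => intro _; simp
    | succ i ih =>
      intro hi
      have h1 := ih (by omega)
      have h2 := hstep i hi
      push_cast
      linarith
  have h1 := hind (n - 1) (by omega)
  have h2 := htS (n - 1) (by omega)
  have h3 := (h 0 hn).1
  have h4 : G (t (n - 1)) - G (t 0) ≤ S + 3 * √Λ := by
    have e1 : 0 ≤ 3 * √Λ * Real.exp (-(t (n - 1) / 2)) := by positivity
    have e2 : 3 * √Λ * Real.exp (-(t 0 / 2)) ≤ 3 * √Λ * 1 :=
      mul_le_mul_of_nonneg_left (Real.exp_le_one_iff.2 (by linarith)) (by positivity)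
    simp only [hG]
    linarith
  have h5 : ((n - 1 : ℕ) : ℝ) = n - 1 := by
    rw [Nat.cast_sub hn]; simp
  rw [h5] at h1
  rw [hS] at h4
  linarith

lemma count_all {q : ℝ → ℝ} {Λ c : ℝ} {U U' : ℝ → ℝ} (hΛ : 0 < Λ) (hq : QD Λ q) (hU : Bd q c U U')
    (hs : ∀ x, U x = 0 → U' x ≠ 0) {n : ℕ} (h : ZL U n) : (n : ℝ) ≤ 2 + 10 * √Λ := by
  obtain ⟨t, ht, ht0⟩ := h
  have hmono : ∀ i j, i ≤ j → j < n → t i ≤ t j := by
    intro i j hij
    induction hij with
    | refl => intro _; exact le_rfl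
    | step hij ih =>
      intro hj
      exact (ih (by omega)).trans (ht _ hj).le
  have hex : ∃ k, n ≤ k ∨ 0 ≤ t k := ⟨n, Or.inl le_rfl⟩
  classical
  set k := Nat.find hex with hk
  have hk1 : n ≤ k ∨ 0 ≤ t k := Nat.find_spec hex
  have hk2 : ∀ i < k, i < n ∧ t i < 0 := by
    intro i hi
    have := Nat.find_min hex hi
    push Not at this
    exact this
  have hkn : k ≤ n := Nat.find_min' hex (Or.inl le_rfl)
  have hneg := count_pos hΛ hq.reflect hU.reflect (fun x hx => neg_ne_zero.2 (hs _ hx)) (n := k)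
    (t := fun i => -t (k - 1 - i)) (fun i hi => by
      have h1 := ht (k - 1 - (i + 1)) (by omega)
      have h2 : k - 1 - (i + 1) + 1 = k - 1 - i := by omega
      rw [h2] at h1
      linarith) (fun i hi => by
      obtain ⟨h1, h2⟩ := hk2 (k - 1 - i) (by omega)
      refine ⟨by linarith, ?_⟩
      simp only [neg_neg]
      exact ht0 _ h1)
  have hpos := count_pos hΛ hq hU hs (n := n - k) (t := fun i => t (k + i)) (fun i hi => by
      have h1 := ht (k + i) (by omega)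
      exact h1) (fun i hi => by
      refine ⟨?_, ht0 _ (by omega)⟩
      rcases hk1 with h1 | h1
      · omega
      · exact h1.trans (hmono k (k + i) (by omega) (by omega)))
  rw [Nat.cast_sub hkn] at hpos
  linarith

end Pool.Agent.Q167.SR
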