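import Mathlib
import Pool.Agent.Q167.SR.Three
set_option autoImplicit false

/-! # The number of zeros on the line of a finite sum of bounded solutions -/

namespace Pool.Agent.Q167.SR

open Set Filter Topology
open Pool.Agent.Q167.LV

theorem line_core {Λ : ℝ} (hΛ : 0 < Λ) {q : ℝ → ℝ} (hq : QD Λ q) (F : Finset ℝ) (hF : F.Nonempty)
    (U U' : ℝ → ℝ → ℝ) (hU : ∀ c ∈ F, Bd q c (U c) (U' c)) (hne : ∀ c ∈ F, ∃ x, U c x ≠ 0)
    {n : ℕ} (hz : ZL (fun x => ∑ c ∈ F, U c x) n) : (n : ℝ) ≤ 2 + 10 * √Λ := by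
  classical
  set c₀ := F.min' hF with hc₀
  have hc₀F : c₀ ∈ F := F.min'_mem hF
  have hcle : ∀ c ∈ F, c₀ ≤ c := fun c hc => F.min'_le c hc
  have hqΛ : ∀ x, q x ≤ Λ := by
    intro x
    have h1 := hq.2 x
    have h2 : Real.exp (-|x|) ≤ 1 := Real.exp_le_one_iff.2 (by have := abs_nonneg x; linarith)
    have h3 := mul_le_mul_of_nonneg_left h2 hΛ.le
    linarith
  set M : ℝ := 1 + Λ + ∑ c ∈ F, |c| with hM
  have hsum : 0 ≤ ∑ c ∈ F, |c| := Finset.sum_nonneg fun _ _ => abs_nonneg _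
  have hM0 : 0 < M := by rw [hM]; linarith
  have hQ : ∀ x, 0 < M - q x := by
    intro x
    have := hqΛ x
    rw [hM]; linarith
  have hcM : ∀ c ∈ F, 0 < M - c := by
    intro c hc
    have h1 : |c| ≤ ∑ c ∈ F, |c| := Finset.single_le_sum (f := fun c : ℝ => |c|) (fun _ _ => abs_nonneg _) hc
    have h2 := le_abs_self c
    rw [hM]; linarith
  have h0M := hcM c₀ hc₀F
  set r : ℝ → ℝ := fun c => (M - c) / (M - c₀) with hr
  have hr0 : ∀ c ∈ F, 0 ≤ r c := fun c hc => (div_pos (hcM c hc) h0M).le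
  have hr1 : ∀ c ∈ F, c ≠ c₀ → r c < 1 := by
    intro c hc hne
    rw [hr]
    simp only
    rw [div_lt_one h0M]
    have := lt_of_le_of_ne (hcle c hc) (Ne.symm hne)
    linarith
  have hrc : r c₀ = 1 := div_self h0M.ne'
  set w : ℕ → ℝ → ℝ := fun m x => ∑ c ∈ F, r c ^ m * U c x with hw
  set w' : ℕ → ℝ → ℝ := fun m x => ∑ c ∈ F, r c ^ m * U' c x with hw'
  have hwd : ∀ m x, HasDerivAt (w m) (w' m x) x := by
    intro m x
    apply HasDerivAt.fun_sum
    intro c hc
    exact ((hU c hc).d1 x).const_mul _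
  have hwd' : ∀ m x, HasDerivAt (w' m) (∑ c ∈ F, r c ^ m * (-((q x - c) * U c x))) x := by
    intro m x
    apply HasDerivAt.fun_sum
    intro c hc
    exact ((hU c hc).d2 x).const_mul _
  have hwc : ∀ m, Continuous (w m) := fun m => continuous_iff_continuousAt.2 fun x => (hwd m x).continuousAt
  have hrM : ∀ c, r c * (M - c₀) = M - c := fun c => div_mul_cancel₀ _ h0M.ne'
  have hrec : ∀ m x, (M - c₀) * w (m + 1) x =
      -(∑ c ∈ F, r c ^ m * (-((q x - c) * U c x))) + (M - q x) * w m x := by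
    intro m x
    simp only [hw]
    rw [Finset.mul_sum, Finset.mul_sum, ← Finset.sum_neg_distrib, ← Finset.sum_add_distrib]
    apply Finset.sum_congr rfl
    intro c _
    calc (M - c₀) * (r c ^ (m + 1) * U c x) = r c ^ m * (r c * (M - c₀)) * U c x := by ring
      _ = _ := by rw [hrM]; ring
  have hlimG : ∀ (V : ℝ → ℝ → ℝ), (∀ c ∈ F, Continuous (V c)) → ∀ (φ : ℕ → ℕ) (x : ℕ → ℝ) (a : ℝ),
      Tendsto φ atTop atTop → Tendsto x atTop (𝓝 a) →
      Tendsto (fun m => ∑ c ∈ F, r c ^ (φ m) * V c (x m)) atTop (𝓝 (V c₀ a)) := by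
    intro V hV φ x a hφ hx
    have h1 : V c₀ a = ∑ c ∈ F, (if c = c₀ then 1 else 0) * V c a := by
      simp [hc₀F]
    rw [h1]
    apply tendsto_finsetSum
    intro c hc
    apply Tendsto.mul _ (((hV c hc).tendsto a).comp hx)
    split_ifs with h
    · rw [h, hrc]
      simp
    · exact (tendsto_pow_atTop_nhds_zero_of_lt_one (hr0 c hc) (hr1 c hc h)).comp hφ
  have hUc : ∀ c ∈ F, Continuous (U c) := fun c hc => continuous_iff_continuousAt.2 fun x => ((hU c hc).d1 x).continuousAt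
  have hUc' : ∀ c ∈ F, Continuous (U' c) := fun c hc => continuous_iff_continuousAt.2 fun x => ((hU c hc).d2 x).continuousAt
  have hsimple : ∀ x, U c₀ x = 0 → U' c₀ x ≠ 0 := by
    intro x h1 h2
    obtain ⟨y, hy⟩ := hne c₀ hc₀F
    apply hy
    exact unique_zero (P := fun x => q x - c₀) (C := Λ + |c₀|) (hU c₀ hc₀F).d1 (hU c₀ hc₀F).d2
      (fun x => by
        have e1 := hq.1 x
        have e2 := hqΛ x
        calc |q x - c₀| ≤ |q x| + |c₀| := abs_sub _ _
          _ ≤ Λ + |c₀| := by rw [abs_of_nonneg e1]; linarith) h1 h2 y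
  have hprop : ∀ m a b, (∀ x ∈ Ioo a b, w m x = 0) → ∀ x ∈ Ioo a b, w (m + 1) x = 0 := by
    intro m a b h x hx
    have h1 : ∀ y ∈ Ioo a b, w' m y = 0 := by
      intro y hy
      have e1 : w m =ᶠ[𝓝 y] fun _ => 0 := by
        filter_upwards [isOpen_Ioo.mem_nhds hy] with z hz
        exact h z hz
      exact (hwd m y).unique ((hasDerivAt_const y (0 : ℝ)).congr_of_eventuallyEq e1)
    have h2 : ∑ c ∈ F, r c ^ m * (-((q x - c) * U c x)) = 0 := by
      have e1 : w' m =ᶠ[𝓝 x] fun _ => 0 := by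
        filter_upwards [isOpen_Ioo.mem_nhds hx] with z hz
        exact h1 z hz
      exact (hwd' m x).unique ((hasDerivAt_const x (0 : ℝ)).congr_of_eventuallyEq e1)
    have h3 := hrec m x
    rw [h2, h x hx] at h3
    simp only [neg_zero, mul_zero, add_zero] at h3
    rcases mul_eq_zero.1 h3 with h4 | h4
    · exact absurd h4 h0M.ne'
    · exact h4
  have hnoint : ∀ m a b, a < b → ∃ x ∈ Ioo a b, w m x ≠ 0 := by
    intro m a b hab
    by_contra hcon
    push Not at hcon
    have hall : ∀ k, ∀ x ∈ Ioo a b, w (m + k) x = 0 := by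
      intro k
      induction k with
      | zero => exact hcon
      | succ k ih => exact hprop (m + k) a b ih
    have hU0 : ∀ x ∈ Ioo a b, U c₀ x = 0 := by
      intro x hx
      have h1 := hlimG U hUc (fun k => m + k) (fun _ => x) x
        (tendsto_atTop_mono (fun k => Nat.le_add_left k m) tendsto_id) tendsto_const_nhds
      have h2 : (fun k => ∑ c ∈ F, r c ^ (m + k) * U c x) = fun _ => 0 := by
        ext k; exact hall k x hx
      rw [h2] at h1
      exact tendsto_nhds_unique h1 tendsto_const_nhds |>.symm ▸ rfl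
    have hmid : (a + b) / 2 ∈ Ioo a b := ⟨by linarith, by linarith⟩
    have e1 : U c₀ =ᶠ[𝓝 ((a + b) / 2)] fun _ => 0 := by
      filter_upwards [isOpen_Ioo.mem_nhds hmid] with z hz
      exact hU0 z hz
    exact hsimple _ (hU0 _ hmid) (((hU c₀ hc₀F).d1 _).unique ((hasDerivAt_const _ (0 : ℝ)).congr_of_eventuallyEq e1))
  -- limits at infinity
  have hlimits : ∀ (l : Filter ℝ), (∀ c ∈ F, ∃ a, Tendsto (U c) l (𝓝 a) ∧ (1 ≤ c → a = 0)) →
      ∀ m, ∃ a, Tendsto (w m) l (𝓝 a) ∧ Tendsto (fun x => (M - c₀) * w (m + 1) x) l (𝓝 (M * a)) := by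
    intro l hl m
    choose! a ha ha0 using hl
    refine ⟨∑ c ∈ F, r c ^ m * a c, ?_, ?_⟩
    · apply tendsto_finsetSum
      intro c hc
      exact (ha c hc).const_mul _
    · have h1 : M * ∑ c ∈ F, r c ^ m * a c = (M - c₀) * ∑ c ∈ F, r c ^ (m + 1) * a c := by
        rw [Finset.mul_sum, Finset.mul_sum]
        apply Finset.sum_congr rfl
        intro c hc
        have h2 : c * a c = 0 := by
          rcases (hU c hc).hc with h | h
          · rw [h, zero_mul]
          · rw [ha0 c hc h, mul_zero]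
        calc M * (r c ^ m * a c) = r c ^ m * (M - c) * a c + r c ^ m * (c * a c) := by ring
          _ = r c ^ m * (r c * (M - c₀)) * a c := by rw [h2, hrM]; ring
          _ = _ := by ring
      rw [h1]
      apply Tendsto.const_mul
      apply tendsto_finsetSum
      intro c hc
      exact (ha c hc).const_mul _
  have hTop := hlimits atTop fun c hc => (hU c hc).limit hq
  have hBot := hlimits atBot fun c hc => by
    obtain ⟨a, ha, ha0⟩ := (hU c hc).reflect.limit hq.reflect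
    refine ⟨a, ?_, ha0⟩
    have := ha.comp tendsto_neg_atBot_atTop
    refine this.congr fun x => ?_
    simp
  have hZ : ∀ m, ZL (w m) n := by
    intro m
    induction m with
    | zero =>
      have : w 0 = fun x => ∑ c ∈ F, U c x := by
        ext x; simp [hw]
      rw [this]; exact hz
    | succ m ih =>
      obtain ⟨a, ha1, ha2⟩ := hTop m
      obtain ⟨b, hb1, hb2⟩ := hBot m
      have h1 := stepL (hwd m) (hwd' m) (v := fun x => (M - c₀) * w (m + 1) x)
        (continuous_const.mul (hwc _)) (fun x => hrec m x) hQ hM0 ha1 ha2 hb1 hb2 (hnoint m) ih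
      obtain ⟨t, h2, h3⟩ := h1
      refine ⟨t, h2, fun i hi => ?_⟩
      rcases mul_eq_zero.1 (h3 i hi) with h5 | h5
      · exact absurd h5 h0M.ne'
      · exact h5
  -- no escape of the zeros
  obtain ⟨S, hS0, hS⟩ := exists_S Λ
  have hcmp : ∀ c ∈ F.erase c₀, ∃ C : ℝ, ∀ x, S ≤ |x| → |U c x| ≤ C * |U c₀ x| := by
    intro c hc
    obtain ⟨hcne, hcF⟩ := Finset.mem_erase.1 hc
    have hlt := lt_of_le_of_ne (hcle c hcF) (Ne.symm hcne)
    obtain ⟨C₁, hC₁⟩ := compare hq (hU c₀ hc₀F) (hU c hcF) hlt hS0 hS hsimple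
    obtain ⟨C₂, hC₂⟩ := compare hq.reflect (hU c₀ hc₀F).reflect (hU c hcF).reflect hlt hS0 hS
      (fun x hx => neg_ne_zero.2 (hsimple _ hx))
    refine ⟨max C₁ C₂, fun x hx => ?_⟩
    rcases le_total 0 x with h | h
    · rw [abs_of_nonneg h] at hx
      exact (hC₁ x hx).trans (mul_le_mul_of_nonneg_right (le_max_left _ _) (abs_nonneg _))
    · rw [abs_of_nonpos h] at hx
      have := hC₂ (-x) hx
      rw [neg_neg] at this
      exact this.trans (mul_le_mul_of_nonneg_right (le_max_right _ _) (abs_nonneg _))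
  choose! C hC using hcmp
  have hev : ∀ᶠ m : ℕ in atTop, ∑ c ∈ F.erase c₀, r c ^ m * C c < 1 := by
    have h1 : Tendsto (fun m : ℕ => ∑ c ∈ F.erase c₀, r c ^ m * C c) atTop (𝓝 (∑ c ∈ F.erase c₀, 0 * C c)) := by
      apply tendsto_finsetSum
      intro c hc
      obtain ⟨hcne, hcF⟩ := Finset.mem_erase.1 hc
      exact (tendsto_pow_atTop_nhds_zero_of_lt_one (hr0 c hcF) (hr1 c hcF hcne)).mul_const _
    simp only [zero_mul, Finset.sum_const_zero] at h1
    exact h1.eventually (gt_mem_nhds one_pos)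
  obtain ⟨m₀, hm₀⟩ := eventually_atTop.1 hev
  have hno : ∀ m, m₀ ≤ m → ∀ x, S ≤ |x| → w m x ≠ 0 := by
    intro m hm x hx h0
    have hUx : U c₀ x ≠ 0 := by
      rcases le_total 0 x with h | h
      · rw [abs_of_nonneg h] at hx
        exact (hU c₀ hc₀F).no_zero hq hsimple hS0 hS hx
      · rw [abs_of_nonpos h] at hx
        have := (hU c₀ hc₀F).reflect.no_zero hq.reflect (fun x hx => neg_ne_zero.2 (hsimple _ hx)) hS0 hS hx
        simpa using this
    have hpos : 0 < |U c₀ x| := abs_pos.2 hUx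
    have h1 : w m x = U c₀ x + ∑ c ∈ F.erase c₀, r c ^ m * U c x := by
      simp only [hw]
      rw [← Finset.add_sum_erase F _ hc₀F, hrc]
      simp
    have h2 : |∑ c ∈ F.erase c₀, r c ^ m * U c x| ≤ (∑ c ∈ F.erase c₀, r c ^ m * C c) * |U c₀ x| := by
      refine (Finset.abs_sum_le_sum_abs _ _).trans ?_
      rw [Finset.sum_mul]
      apply Finset.sum_le_sum
      intro c hc
      obtain ⟨hcne, hcF⟩ := Finset.mem_erase.1 hc
      rw [abs_mul, abs_of_nonneg (pow_nonneg (hr0 c hcF) m), mul_assoc]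
      exact mul_le_mul_of_nonneg_left (hC c hc x hx) (pow_nonneg (hr0 c hcF) m)
    have h3 : |∑ c ∈ F.erase c₀, r c ^ m * U c x| = |U c₀ x| := by
      have : ∑ c ∈ F.erase c₀, r c ^ m * U c x = -U c₀ x := by linarith [h1, h0]
      rw [this, abs_neg]
    rw [h3] at h2
    have h4 := hm₀ m hm
    nlinarith
  have hfin := limitL (n := n) (S := S) (v := U c₀) (v' := U' c₀) (w := fun m => w (m + m₀))
    (w' := fun m => w' (m + m₀)) (fun m x => hwd _ x)
    (fun φ x a hφ hx => hlimG U hUc (fun m => φ m + m₀) x a (tendsto_atTop_mono (fun m => Nat.le_add_right (φ m) m₀) hφ) hx)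
    (fun φ x a hφ hx => hlimG U' hUc' (fun m => φ m + m₀) x a (tendsto_atTop_mono (fun m => Nat.le_add_right (φ m) m₀) hφ) hx)
    (fun m => by
      obtain ⟨t, ht1, ht2⟩ := hZ (m + m₀)
      refine ⟨t, ht1, fun i hi => ⟨ht2 i hi, ?_⟩⟩
      by_contra hcon
      push Not at hcon
      exact hno (m + m₀) (Nat.le_add_left _ _) (t i) hcon.le (ht2 i hi)) hsimple
  exact count_all hΛ hq (hU c₀ hc₀F) hsimple hfin

/-- **Sturm on the line**: a finite sum of bounded solutions of `u_i'' = (c_i - q) u_i`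
(`c_i = 0` or `c_i ≥ 1`) has at most `2 + 10 √Λ` zeros, unless it vanishes identically. -/
theorem line {Λ : ℝ} (hΛ : 0 < Λ) {q : ℝ → ℝ} (hq : QD Λ q) {ι : Type} [Fintype ι] (κ : ι → ℝ)
    (u u' : ι → ℝ → ℝ) (hu : ∀ i, Bd q (κ i) (u i) (u' i)) (hne : ∃ x, ∑ i, u i x ≠ 0)
    {n : ℕ} (hz : ZL (fun x => ∑ i, u i x) n) : (n : ℝ) ≤ 2 + 10 * √Λ := by
  classical
  set U : ℝ → ℝ → ℝ := fun c x => ∑ i with κ i = c, u i x with hU
  set U' : ℝ → ℝ → ℝ := fun c x => ∑ i with κ i = c, u' i x with hU'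
  set G : Finset ℝ := Finset.univ.image κ with hG
  have htot : ∀ x, ∑ c ∈ G, U c x = ∑ i, u i x := by
    intro x
    exact Finset.sum_fiberwise_of_maps_to (s := Finset.univ) (t := G) (g := κ) (fun i _ => Finset.mem_image_of_mem _ (Finset.mem_univ i)) (fun i => u i x)
  set F : Finset ℝ := G.filter fun c => ∃ x, U c x ≠ 0 with hF
  have htotF : ∀ x, ∑ c ∈ F, U c x = ∑ i, u i x := by
    intro x
    rw [← htot x, hF]
    apply Finset.sum_filter_of_ne
    intro c _ hc
    exact ⟨x, hc⟩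
  have hFn : F.Nonempty := by
    obtain ⟨x, hx⟩ := hne
    rw [← htotF x] at hx
    exact Finset.nonempty_of_sum_ne_zero hx
  have hz' : ZL (fun x => ∑ c ∈ F, U c x) n := by
    have : (fun x => ∑ c ∈ F, U c x) = fun x => ∑ i, u i x := funext htotF
    rw [this]; exact hz
  refine line_core hΛ hq F hFn U U' ?_ (fun c hc => (Finset.mem_filter.1 hc).2) hz'
  intro c hc
  refine ⟨fun x => HasDerivAt.fun_sum fun i _ => (hu i).d1 x, fun x => ?_, ?_, ?_⟩
  · have h1 : HasDerivAt (U' c) (∑ i with κ i = c, -((q x - κ i) * u i x)) x :=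
      HasDerivAt.fun_sum fun i _ => (hu i).d2 x
    refine h1.congr_deriv ?_
    rw [hU]
    simp only
    rw [Finset.mul_sum, ← Finset.sum_neg_distrib]
    apply Finset.sum_congr rfl
    intro i hi
    rw [(Finset.mem_filter.1 hi).2]
  · choose B hB using fun i => (hu i).bdd
    refine ⟨∑ i with κ i = c, B i, fun x => ?_⟩
    exact (Finset.abs_sum_le_sum_abs _ _).trans (Finset.sum_le_sum fun i _ => hB i x)
  · have h1 : c ∈ G := (Finset.mem_filter.1 hc).1
    obtain ⟨i, -, rfl⟩ := Finset.mem_image.1 h1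
    exact (hu i).hc

end Pool.Agent.Q167.SR
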