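import Mathlib
import Pool.Agent.Q167.SR.Four
import Pool.Agent.Q167.LV.Eight
import Pool.Agent.Y291.DB.Modes
set_option autoImplicit false

/-! # Separation of variables on the cylinder -/

namespace Pool.Agent.Q167.SR

open Set Filter Topology Complex
open Pool.Agent.Q167.LV (px py px_smooth py_smooth hx hy ZZ sturm)
open Pool.Agent.Y291.DB (um um_d1 um_d2 inversion ek)
open scoped ContDiff

/-- bounded solutions on the cylinder -/
structure Cyl (Λ : ℝ) (q : ℝ → ℝ) (f : ℝ × ℝ → ℝ) : Prop where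
  smooth : ContDiff ℝ ∞ f
  per : ∀ x y, f (x, y + 2 * Real.pi) = f (x, y)
  bdd : ∃ B, ∀ z, |f z| ≤ B
  pde : ∀ z, px (px f) z + py (py f) z = -(q z.1 * f z)
  qc : Continuous q
  qd : QD Λ q

variable {Λ : ℝ} {q : ℝ → ℝ} {f : ℝ × ℝ → ℝ}

/-- curried form -/
def cur (f : ℝ × ℝ → ℝ) (x y : ℝ) : ℝ := f (x, y)

lemma Cyl.sol (h : Cyl Λ q f) :
    Pool.Agent.Y291.DB.Sol q (cur f) (cur (px f)) (cur (px (px f))) (cur (py f)) (cur (py (py f))) where
  qc := h.qc
  c := h.smooth.continuous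
  cx := (px_smooth h.smooth).continuous
  cxx := (px_smooth (px_smooth h.smooth)).continuous
  cy := (py_smooth h.smooth).continuous
  cyy := (py_smooth (py_smooth h.smooth)).continuous
  dx := fun x y => hx h.smooth x y
  dxx := fun x y => hx (px_smooth h.smooth) x y
  dy := fun x y => hy h.smooth x y
  dyy := fun x y => hy (py_smooth h.smooth) x y
  pde := fun x y => h.pde (x, y)

lemma um_bdd {B : ℝ} (hB : ∀ z, |f z| ≤ B) (k : ℤ) (x : ℝ) : ‖um (cur f) k x‖ ≤ B := by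
  unfold um
  rw [norm_mul]
  have h1 : ‖∫ y in (0 : ℝ)..(2 * Real.pi), (cur f x y : ℂ) * ek k y‖ ≤ B * |2 * Real.pi - 0| := by
    apply intervalIntegral.norm_integral_le_of_norm_le_const
    intro y _
    rw [norm_mul, Complex.norm_real]
    have h2 : ‖ek k y‖ = 1 := by
      unfold ek
      rw [show -((k : ℂ) * (y : ℂ) * I) = ((-(k * y) : ℝ) : ℂ) * I by push_cast; ring]
      exact Complex.norm_exp_ofReal_mul_I _
    rw [h2, mul_one]
    exact hB _
  rw [sub_zero, abs_of_pos Real.two_pi_pos] at h1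
  have h3 : ‖(((1 / (2 * Real.pi) : ℝ)) : ℂ)‖ = 1 / (2 * Real.pi) := by
    rw [Complex.norm_real, Real.norm_of_nonneg (by positivity)]
  rw [h3]
  calc 1 / (2 * Real.pi) * _ ≤ 1 / (2 * Real.pi) * (B * (2 * Real.pi)) :=
        mul_le_mul_of_nonneg_left h1 (by positivity)
    _ = B := by field_simp

lemma re_deriv {g : ℝ → ℂ} {g' : ℂ} {x : ℝ} (h : HasDerivAt g g' x) :
    HasDerivAt (fun t => (g t).re) g'.re x :=
  Complex.reCLM.hasFDerivAt.comp_hasDerivAt x h

lemma mode_Bd (h : Cyl Λ q f) (k : ℤ) (ζ : ℂ) :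
    Bd q ((k : ℝ) ^ 2) (fun x => (ζ * um (cur f) k x).re) (fun x => (ζ * um (cur (px f)) k x).re) where
  d1 x := re_deriv ((um_d1 h.sol (fun x y => h.per x y) k x).const_mul ζ)
  d2 x := by
    refine (re_deriv ((um_d2 h.sol (fun x y => h.per x y) k x).const_mul ζ)).congr_deriv ?_
    rw [mul_left_comm, Complex.re_ofReal_mul]
    ring
  bdd := by
    obtain ⟨B, hB⟩ := h.bdd
    refine ⟨‖ζ‖ * B, fun x => ?_⟩
    refine (Complex.abs_re_le_norm _).trans ?_
    rw [norm_mul]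
    exact mul_le_mul_of_nonneg_left (um_bdd hB k x) (norm_nonneg _)
  hc := by
    rcases eq_or_ne k 0 with h0 | h0
    · left; simp [h0]
    · right
      have h1 : 1 ≤ |k| := Int.one_le_abs h0
      have h2 : (1 : ℝ) ≤ |(k : ℝ)| := by exact_mod_cast h1
      rw [← sq_abs]
      nlinarith

/-- solutions with large `c` vanish -/
lemma Bd.large {c : ℝ} {w w' : ℝ → ℝ} (hb : Bd q c w w') (hc : ∀ x, q x < c) (x : ℝ) : w x = 0 := by
  have key : ∀ {q w w' : ℝ → ℝ}, Bd q c w w' → (∀ x, q x < c) → ∀ x, w x * w' x ≤ 0 := by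
    intro q w w' hb hc x
    obtain ⟨d1, d2⟩ := sq_deriv (g := fun x => c - q x) hb.d1 (fun x => by
      refine (hb.d2 x).congr_deriv ?_
      ring)
    obtain ⟨B, hB⟩ := hb.bdd
    have h1 := convex_bdd (S := x) (B := B ^ 2) d1 d2 (fun y _ => by
      have h1 := hc y
      have h2 : 0 ≤ (c - q y) * w y ^ 2 := mul_nonneg (by linarith) (sq_nonneg _)
      nlinarith [sq_nonneg (w' y)]) (fun y _ => by
        rw [← sq_abs]
        exact pow_le_pow_left₀ (abs_nonneg _) (hB y) 2) le_rfl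
    linarith
  have h1 : ∀ x, w x * w' x = 0 := by
    intro x
    apply le_antisymm (key hb hc x)
    have := key hb.reflect (fun x => hc (-x)) (-x)
    simp only [neg_neg] at this
    linarith
  obtain ⟨d1, d2⟩ := sq_deriv (g := fun x => c - q x) hb.d1 (fun x => by
    refine (hb.d2 x).congr_deriv ?_
    ring)
  have h2 : (fun x => 2 * (w x * w' x)) = fun _ => 0 := by
    ext x; rw [h1 x, mul_zero]
  have h3 := d2 x
  rw [h2] at h3
  have h4 := h3.unique (hasDerivAt_const x (0 : ℝ))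
  have h5 : 0 < c - q x := by linarith [hc x]
  have h6 : 0 ≤ (c - q x) * w x ^ 2 := mul_nonneg h5.le (sq_nonneg _)
  have h7 : (c - q x) * w x ^ 2 = 0 := by nlinarith [sq_nonneg (w' x)]
  rcases mul_eq_zero.1 h7 with h | h
  · linarith
  · exact pow_eq_zero_iff two_ne_zero |>.1 h

lemma Cyl.q_le (h : Cyl Λ q f) (x : ℝ) : q x ≤ Λ := by
  have hΛ : 0 ≤ Λ := by
    have h1 := (h.qd.1 0).trans (h.qd.2 0)
    simpa using h1
  have h1 := h.qd.2 x
  have h2 : Real.exp (-|x|) ≤ 1 := Real.exp_le_one_iff.2 (by have := abs_nonneg x; linarith)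
  have h3 := mul_le_mul_of_nonneg_left h2 hΛ
  linarith

lemma um_large (h : Cyl Λ q f) {k : ℤ} (hk : Λ < (k : ℝ) ^ 2) (x : ℝ) : um (cur f) k x = 0 := by
  have hc : ∀ x, q x < (k : ℝ) ^ 2 := fun x => lt_of_le_of_lt (h.q_le x) hk
  apply Complex.ext
  · have := (mode_Bd h k 1).large hc x
    simpa using this
  · have := (mode_Bd h k (-I)).large hc x
    simpa using this

lemma expand (h : Cyl Λ q f) : ∃ K : ℕ, ∀ x y, f (x, y) =
    ∑ k : ↥(Finset.Icc (-(K : ℤ)) K), (Complex.exp ((k : ℤ) * y * I) * um (cur f) k x).re := by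
  obtain ⟨K, hK⟩ := exists_nat_gt Λ
  refine ⟨K, fun x y => ?_⟩
  have hvan : ∀ k : ℤ, (K : ℤ) < |k| → um (cur f) k x = 0 := by
    intro k hk
    apply um_large h
    have h1 : (K : ℝ) < |(k : ℝ)| := by exact_mod_cast hk
    have h2 : (1 : ℝ) ≤ |(k : ℝ)| := by
      have : (1 : ℤ) ≤ |k| := by omega
      exact_mod_cast this
    rw [← sq_abs]
    nlinarith
  have h1 := inversion h.sol (fun x y => h.per x y) x hvan y
  have h2 : f (x, y) = (((cur f x y : ℝ)) : ℂ).re := rfl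
  rw [h2, h1, Complex.re_sum]
  rw [← Finset.sum_coe_sort]
  apply Finset.sum_congr rfl
  intro k _
  rw [mul_comm]

/-- zeros on the meridians -/
theorem meridian (hΛ : 0 < Λ) (h : Cyl Λ q f) {y : ℝ} (hne : ∃ x, f (x, y) ≠ 0) {n : ℕ}
    (hz : ZL (fun x => f (x, y)) n) : (n : ℝ) ≤ 2 + 10 * √Λ := by
  obtain ⟨K, hK⟩ := expand h
  have e : (fun x => f (x, y)) = fun x => ∑ k : ↥(Finset.Icc (-(K : ℤ)) K),
      (Complex.exp ((k : ℤ) * y * I) * um (cur f) k x).re := funext fun x => hK x y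
  rw [e] at hz
  refine line hΛ h.qd (fun k : ↥(Finset.Icc (-(K : ℤ)) K) => ((k : ℤ) : ℝ) ^ 2) _
    (fun k x => (Complex.exp ((k : ℤ) * y * I) * um (cur (px f)) k x).re) (fun k => mode_Bd h k _) ?_ hz
  obtain ⟨x, hx⟩ := hne
  exact ⟨x, by rw [← hK x y]; exact hx⟩

/-- zeros on the parallels -/
theorem parallel (hΛ : 0 < Λ) (h : Cyl Λ q f) {x : ℝ} (hne : ∃ y, f (x, y) ≠ 0) {n : ℕ} (hn : 0 < n)
    (hz : ZZ (2 * Real.pi) (fun y => f (x, y)) n) : (n : ℝ) ≤ 2 * Real.pi * √Λ := by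
  obtain ⟨K, hK⟩ := expand h
  have e : (fun y => f (x, y)) = fun y : ℝ => ∑ k : ↥(Finset.Icc (-(K : ℤ)) K),
      (Complex.exp ((k : ℤ) * y * I) * um (cur f) k x).re := funext fun y => hK x y
  rw [e] at hz
  have hexp : ∀ (k : ℤ) (y : ℝ), HasDerivAt (fun y : ℝ => Complex.exp (k * y * I)) ((k * I) * Complex.exp (k * y * I)) y := by
    intro k y
    have h1 : HasDerivAt (fun y : ℝ => (k : ℂ) * (y : ℂ) * I) ((k : ℂ) * 1 * I) y :=
      ((Complex.ofRealCLM.hasDerivAt (x := y)).const_mul (k : ℂ)).mul_const I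
    refine h1.cexp.congr_deriv ?_
    ring
  refine sturm (p := fun _ => 0) Real.two_pi_pos (Real.sqrt_pos.2 hΛ) continuous_const (fun _ => rfl)
    (fun k : ↥(Finset.Icc (-(K : ℤ)) K) => ((k : ℤ) : ℝ) ^ 2)
    (fun k y => (Complex.exp ((k : ℤ) * y * I) * um (cur f) k x).re)
    (fun k y => ((((k : ℤ) : ℂ) * I) * Complex.exp ((k : ℤ) * y * I) * um (cur f) k x).re) ?_ ?_ ?_ ?_ ?_ hn hz
  · intro k y
    exact re_deriv ((hexp k y).mul_const _)
  · intro k y
    refine (re_deriv (((hexp k y).const_mul (((k : ℤ) : ℂ) * I)).mul_const (um (cur f) k x))).congr_deriv ?_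
    have h1 : (((k : ℤ) : ℂ) * I) * ((((k : ℤ) : ℂ) * I) * Complex.exp ((k : ℤ) * y * I)) * um (cur f) k x =
        ((-(((k : ℤ) : ℝ) ^ 2) : ℝ) : ℂ) * (Complex.exp ((k : ℤ) * y * I) * um (cur f) k x) := by
      push_cast
      have hI : I * I = -1 := Complex.I_mul_I
      linear_combination (((k : ℤ) : ℂ) ^ 2 * Complex.exp ((k : ℤ) * y * I) * um (cur f) k x) * hI
    rw [h1, Complex.re_ofReal_mul]
    ring
  · intro k y
    show (Complex.exp ((k : ℤ) * ((y + 2 * Real.pi : ℝ) : ℂ) * I) * um (cur f) k x).re = _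
    congr 2
    have : ((k : ℤ) : ℂ) * ((y + 2 * Real.pi : ℝ) : ℂ) * I = ((k : ℤ) : ℂ) * y * I + ((k : ℤ) : ℂ) * (2 * Real.pi * I) := by
      push_cast; ring
    rw [this, Complex.exp_add, Complex.exp_int_mul_two_pi_mul_I, mul_one]
  · intro k hk _
    rw [Real.sq_sqrt hΛ.le, zero_add]
    by_contra hcon
    push Not at hcon
    obtain ⟨y, hy⟩ := hk
    apply hy
    rw [um_large h hcon x, mul_zero, Complex.zero_re]
  · obtain ⟨y, hy⟩ := hne
    exact ⟨y, by rw [← hK x y]; exact hy⟩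

end Pool.Agent.Q167.SR
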