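import Mathlib
import Pool.Agent.Q167.SR.Five
import Pool.Agent.Q167.LV.Nine
set_option autoImplicit false

/-! # The nodal length on spheres of revolution -/

namespace Pool.Agent.Q167.SR

open Set Filter Topology MeasureTheory Measure
open Pool.Agent.Q167.LV (maxp bd cnt1 cnt2 exists_good line_count zeros_finite ZZ)
open scoped ContDiff ENNReal

variable {Λ : ℝ} {q : ℝ → ℝ} {f : ℝ × ℝ → ℝ}

lemma ZL_of_finset {u : ℝ → ℝ} (S : Finset ℝ) (h0 : ∀ x ∈ S, u x = 0) : ZL u S.card := by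
  set e := S.orderEmbOfFin (rfl : S.card = S.card) with he
  have hmem : ∀ j, e j ∈ S := fun j => S.orderEmbOfFin_mem rfl j
  refine ⟨fun i => if h : i < S.card then e ⟨i, h⟩ else 0, ?_, ?_⟩
  · intro i hi
    have h1 : i < S.card := by omega
    simp only [dif_pos h1, dif_pos hi]
    apply e.strictMono
    simp
  · intro i hi
    simp only [dif_pos hi]
    exact h0 _ (hmem _)

/-- zeros on a meridian are finite in number -/
lemma mer_finite (hΛ : 0 < Λ) (h : Cyl Λ q f) {y : ℝ} (hne : ∃ x, f (x, y) ≠ 0) :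
    {x | f (x, y) = 0}.Finite ∧ ∀ S : Finset ℝ, (∀ x ∈ S, f (x, y) = 0) → (S.card : ℝ) ≤ 2 + 10 * √Λ := by
  have h1 : ∀ S : Finset ℝ, (∀ x ∈ S, f (x, y) = 0) → (S.card : ℝ) ≤ 2 + 10 * √Λ := fun S hS =>
    meridian hΛ h hne (ZL_of_finset (u := fun x => f (x, y)) S hS)
  refine ⟨?_, h1⟩
  by_contra hinf
  obtain ⟨n, hn⟩ := exists_nat_gt (2 + 10 * √Λ)
  obtain ⟨S, hS, hcard⟩ := Set.Infinite.exists_subset_card_eq hinf n
  have h2 := h1 S (fun x hx => hS hx)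
  rw [hcard] at h2
  linarith

lemma good_of_countable {u : ℝ → ℝ} (hc : {x | u x = 0}.Countable) (X : ℝ) {d : ℝ} (hd : 0 < d) :
    ∃ s, -d < s ∧ s < 0 ∧ ∀ i : ℕ, u (X + s + i * d) ≠ 0 := by
  have h1 : (⋃ i : ℕ, (fun s : ℝ => X + s + i * d) ⁻¹' {x | u x = 0}).Countable :=
    countable_iUnion fun i => hc.preimage (fun a b hab => by simpa using hab)
  obtain ⟨s, hs1, hs2⟩ := (h1.dense_compl ℝ).exists_mem_open isOpen_Ioo (nonempty_Ioo.2 (neg_lt_zero.2 hd))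
  refine ⟨s, hs2.1, hs2.2, fun i hi => hs1 ?_⟩
  exact mem_iUnion.2 ⟨i, hi⟩

lemma count_H {u : ℝ → ℝ} {M : ℝ} (hM : ∀ S : Finset ℝ, (∀ x ∈ S, u x = 0) → (S.card : ℝ) ≤ M) (τ : ℝ)
    {d : ℝ} (hd : 0 < d) (V : Finset ℕ)
    (hV : ∀ j ∈ V, ∃ z, τ + j * d ≤ z ∧ z < τ + (j + 1) * d ∧ u z = 0) : (V.card : ℝ) ≤ M := by
  classical
  choose! z hz1 hz2 hz3 using hV
  have hinj : Set.InjOn z V := by
    intro i hi j hj hij
    have a1 := hz1 i hi
    have a2 := hz2 i hi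
    have a3 := hz1 j hj
    have a4 := hz2 j hj
    rw [hij] at a1 a2
    have b1 : (i : ℝ) * d < (j + 1) * d := by linarith
    have b2 : (j : ℝ) * d < (i + 1) * d := by linarith
    have c1 : (i : ℝ) < j + 1 := lt_of_mul_lt_mul_right b1 hd.le
    have c2 : (j : ℝ) < i + 1 := lt_of_mul_lt_mul_right b2 hd.le
    have d1 : i < j + 1 := by exact_mod_cast c1
    have d2 : j < i + 1 := by exact_mod_cast c2
    omega
  have hcard : (V.image z).card = V.card := Finset.card_image_of_injOn hinj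
  rw [← hcard]
  apply hM
  intro x hx
  obtain ⟨j, hj, rfl⟩ := Finset.mem_image.1 hx
  exact hz3 j hj

lemma coverS (hΛ : 0 < Λ) (h : Cyl Λ q f) (hq0 : ∀ x, 0 < q x) (hne : ∃ z, f z ≠ 0) (X : ℝ) (N : ℕ)
    (hN : 0 < N) (hsm : √Λ * (1 / N) < 1) :
    ∃ (I : Finset (ℕ × ℕ)) (s t : ℝ),
      (I.card : ℝ) ≤ 4 * (N + 1) * (6 * Real.pi * √Λ + (2 + 10 * √Λ)) ∧
      ∀ x y, X ≤ x → x ≤ X + 1 → 0 ≤ y → y ≤ 2 * Real.pi → f (x, y) = 0 → ∃ p ∈ I,
        (s + p.1 * (1 / N) ≤ x ∧ x ≤ s + (p.1 + 1) * (1 / N)) ∧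
        (t + p.2 * (2 * Real.pi / N) ≤ y ∧ y ≤ t + (p.2 + 1) * (2 * Real.pi / N)) := by
  classical
  have hN0 : (0 : ℝ) < N := by exact_mod_cast hN
  have hK0 : 0 < √Λ := Real.sqrt_pos.2 hΛ
  have hpi := Real.two_pi_pos
  set d₁ : ℝ := 1 / N with hd₁
  set d₂ := 2 * Real.pi / N with hd₂
  have hd₁0 : 0 < d₁ := by positivity
  have hd₂0 : 0 < d₂ := by positivity
  have hNd₁ : N * d₁ = 1 := mul_div_cancel₀ _ hN0.ne'
  have hNd₂ : N * d₂ = 2 * Real.pi := mul_div_cancel₀ _ hN0.ne'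
  obtain ⟨⟨xs, ys⟩, hz⟩ := hne
  have hpery : ∀ x, Function.Periodic (fun y => f (x, y)) (2 * Real.pi) := fun x y => h.per x y
  obtain ⟨s', hs1, hs2, hs⟩ := good_of_countable (u := fun x => f (x, ys)) (mer_finite hΛ h ⟨xs, hz⟩).1.countable X hd₁0
  obtain ⟨t, ht1, ht2, ht⟩ := exists_good hpi (u := fun y => f (xs, y)) (hpery xs)
    (fun n hn hzz => parallel hΛ h ⟨ys, hz⟩ hn hzz) hd₂0
  set s := X + s' with hs'
  set V : ℕ → Finset ℕ := fun i => (Finset.range (N + 2)).filter fun j =>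
    ∃ z, t + j * d₂ ≤ z ∧ z < t + (j + 1) * d₂ ∧ f (s + i * d₁, z) = 0 with hV
  set H : ℕ → Finset ℕ := fun j => (Finset.range (N + 2)).filter fun i =>
    ∃ z, s + i * d₁ ≤ z ∧ z < s + (i + 1) * d₁ ∧ f (z, t + j * d₂) = 0 with hH
  have hVc : ∀ i, ((V i).card : ℝ) ≤ 3 * (2 * Real.pi * √Λ) := by
    intro i
    apply line_count hpi (u := fun y => f (s + i * d₁, y)) (hpery _) (by positivity)
      (fun n hn hzz => parallel hΛ h ⟨ys, hs i⟩ hn hzz) t hN
    intro j hj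
    simp only [hV, Finset.mem_filter, Finset.mem_range] at hj
    exact hj
  have hHc : ∀ j, ((H j).card : ℝ) ≤ 2 + 10 * √Λ := by
    intro j
    apply count_H (u := fun x => f (x, t + j * d₂)) (mer_finite hΛ h ⟨xs, ht j⟩).2 s hd₁0
    intro i hi
    simp only [hH, Finset.mem_filter, Finset.mem_range] at hi
    exact hi.2
  set R := Finset.range (N + 1) ×ˢ Finset.range (N + 1) with hR
  set I := R.filter fun p : ℕ × ℕ => ∃ z ∈ Icc (s + p.1 * d₁) (s + (p.1 + 1) * d₁) ×ˢ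
    Icc (t + p.2 * d₂) (t + (p.2 + 1) * d₂), f z = 0 with hI
  set A : ℕ → ℕ → Finset (ℕ × ℕ) := fun δ ε => R.filter fun p : ℕ × ℕ => p.2 + ε ∈ V (p.1 + δ) with hA
  set B : ℕ → ℕ → Finset (ℕ × ℕ) := fun δ ε => R.filter fun p : ℕ × ℕ => p.1 + ε ∈ H (p.2 + δ) with hB
  have hAc : ∀ δ ε, ((A δ ε).card : ℝ) ≤ (N + 1) * (3 * (2 * Real.pi * √Λ)) := by
    intro δ ε
    have := cnt1 (N + 1) V _ hVc δ ε
    push_cast at this
    exact this
  have hBc : ∀ δ ε, ((B δ ε).card : ℝ) ≤ (N + 1) * (2 + 10 * √Λ) := by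
    intro δ ε
    have := cnt2 (N + 1) H _ hHc δ ε
    push_cast at this
    exact this
  have hpde : ∀ z, LV.px (LV.px f) z + LV.py (LV.py f) z = -((q z.1 + (fun _ : ℝ => (0 : ℝ)) z.2) * f z) := by
    intro z
    rw [h.pde z, add_zero]
  have hsub : I ⊆ ((A 0 0 ∪ A 0 1) ∪ (A 1 0 ∪ A 1 1)) ∪ ((B 0 0 ∪ B 0 1) ∪ (B 1 0 ∪ B 1 1)) := by
    rintro ⟨i, j⟩ hp
    simp only [hI, Finset.mem_filter] at hp
    obtain ⟨hpR, z, hzQ, hz0⟩ := hp
    have hpR' : i < N + 1 ∧ j < N + 1 := by simpa [hR] using hpR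
    have hx01 : s + i * d₁ ≤ s + (i + 1) * d₁ := by nlinarith
    have hy01 : t + j * d₂ ≤ t + (j + 1) * d₂ := by nlinarith
    obtain ⟨⟨x, y⟩, ⟨hx, hy⟩, hbd, hw0⟩ := maxp (α := q) (β := fun _ => (0 : ℝ)) h.smooth hpde hK0 (fun x y => by simpa using hq0 x)
      (fun x y => by rw [Real.sq_sqrt hΛ.le, add_zero]; exact h.q_le x) hx01 hy01
      (by have : s + (i + 1) * d₁ - (s + i * d₁) = d₁ := by ring
          rw [this]; exact hsm) ⟨z, hzQ, hz0⟩
    simp only [bd] at hbd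
    change x ∈ Icc (s + i * d₁) (s + (i + 1) * d₁) at hx
    change y ∈ Icc (t + j * d₂) (t + (j + 1) * d₂) at hy
    have memV : ∀ δ : ℕ, δ < 2 → x = s + (i + δ : ℕ) * d₁ → (i, j) ∈ A δ 0 ∨ (i, j) ∈ A δ 1 := by
      intro δ _ hx'
      rcases lt_or_eq_of_le hy.2 with h | h
      · left
        simp only [hA, hV, Finset.mem_filter, Finset.mem_range]
        refine ⟨hpR, by omega, y, ?_, ?_, ?_⟩
        · simpa using hy.1
        · simpa using h
        · rw [← hx']; exact hw0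
      · right
        simp only [hA, hV, Finset.mem_filter, Finset.mem_range]
        refine ⟨hpR, by omega, y, ?_, ?_, ?_⟩
        · rw [h]; push_cast; exact le_rfl
        · rw [h]; push_cast; nlinarith
        · rw [← hx']; exact hw0
    have memH : ∀ δ : ℕ, δ < 2 → y = t + (j + δ : ℕ) * d₂ → (i, j) ∈ B δ 0 ∨ (i, j) ∈ B δ 1 := by
      intro δ _ hy'
      rcases lt_or_eq_of_le hx.2 with h | h
      · left
        simp only [hB, hH, Finset.mem_filter, Finset.mem_range]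
        refine ⟨hpR, by omega, x, ?_, ?_, ?_⟩
        · simpa using hx.1
        · simpa using h
        · rw [← hy']; exact hw0
      · right
        simp only [hB, hH, Finset.mem_filter, Finset.mem_range]
        refine ⟨hpR, by omega, x, ?_, ?_, ?_⟩
        · rw [h]; push_cast; exact le_rfl
        · rw [h]; push_cast; nlinarith
        · rw [← hy']; exact hw0
    simp only [Finset.mem_union]
    rcases hbd with h | h | h | h
    · have := memV 0 (by norm_num) (by rw [h]; simp)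
      tauto
    · have := memV 1 (by norm_num) (by rw [h]; push_cast; ring)
      tauto
    · have := memH 0 (by norm_num) (by rw [h]; simp)
      tauto
    · have := memH 1 (by norm_num) (by rw [h]; push_cast; ring)
      tauto
  refine ⟨I, s, t, ?_, ?_⟩
  · have u4 : ∀ a b c d : Finset (ℕ × ℕ), (((a ∪ b) ∪ (c ∪ d)).card : ℝ) ≤ a.card + b.card + (c.card + d.card) := by
      intro a b c d
      have := (Finset.card_union_le (a ∪ b) (c ∪ d)).trans
        (add_le_add (Finset.card_union_le a b) (Finset.card_union_le c d))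
      exact_mod_cast this
    have h3 : (I.card : ℝ) ≤ (((A 0 0 ∪ A 0 1) ∪ (A 1 0 ∪ A 1 1)).card : ℝ) +
        (((B 0 0 ∪ B 0 1) ∪ (B 1 0 ∪ B 1 1)).card : ℝ) := by
      exact_mod_cast (Finset.card_le_card hsub).trans (Finset.card_union_le _ _)
    have h4 := u4 (A 0 0) (A 0 1) (A 1 0) (A 1 1)
    have h5 := u4 (B 0 0) (B 0 1) (B 1 0) (B 1 1)
    have a00 := hAc 0 0
    have a01 := hAc 0 1
    have a10 := hAc 1 0
    have a11 := hAc 1 1
    have b00 := hBc 0 0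
    have b01 := hBc 0 1
    have b10 := hBc 1 0
    have b11 := hBc 1 1
    calc (I.card : ℝ) ≤ 4 * ((N + 1) * (3 * (2 * Real.pi * √Λ))) + 4 * ((N + 1) * (2 + 10 * √Λ)) := by linarith
      _ = 4 * (N + 1) * (6 * Real.pi * √Λ + (2 + 10 * √Λ)) := by ring
  · intro x y hx0 hx1 hy0 hy1 hxy
    have loc : ∀ (s d L x : ℝ), 0 < d → N * d = L → -d < s → s < 0 → 0 ≤ x → x ≤ L →
        ∃ i : ℕ, i < N + 1 ∧ s + i * d ≤ x ∧ x ≤ s + (i + 1) * d := by
      intro s d L x hd hNd hs1 hs2 hx0 hx1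
      have hq : 0 ≤ (x - s) / d := div_nonneg (by linarith) hd.le
      have e1 := Nat.floor_le hq
      have e2 := Nat.lt_floor_add_one ((x - s) / d)
      rw [le_div_iff₀ hd] at e1
      rw [div_lt_iff₀ hd] at e2
      refine ⟨⌊(x - s) / d⌋₊, ?_, by linarith, by linarith⟩
      rw [Nat.floor_lt hq, div_lt_iff₀ hd]
      push_cast
      nlinarith
    obtain ⟨i, hi1, hi2, hi3⟩ := loc s' d₁ 1 (x - X) hd₁0 hNd₁ hs1 hs2 (by linarith) (by linarith)
    obtain ⟨j, hj1, hj2, hj3⟩ := loc t d₂ (2 * Real.pi) y hd₂0 hNd₂ ht1 ht2 hy0 hy1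
    have hi2' : s + i * d₁ ≤ x := by rw [hs']; linarith
    have hi3' : x ≤ s + (i + 1) * d₁ := by rw [hs']; linarith
    refine ⟨(i, j), ?_, ⟨hi2', hi3'⟩, ⟨hj2, hj3⟩⟩
    simp only [hI, hR, Finset.mem_filter, Finset.mem_product, Finset.mem_range]
    exact ⟨⟨hi1, hj1⟩, (x, y), ⟨⟨hi2', hi3'⟩, ⟨hj2, hj3⟩⟩, hxy⟩

theorem strip (hΛ : 0 < Λ) (h : Cyl Λ q f) (hq0 : ∀ x, 0 < q x) (hne : ∃ z, f z ≠ 0) (X : ℝ) :
    μH[1] {z : ℂ | (X ≤ z.re ∧ z.re ≤ X + 1) ∧ (0 ≤ z.im ∧ z.im ≤ 2 * Real.pi) ∧ f (z.re, z.im) = 0} ≤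
      ENNReal.ofReal (850 * (1 + √Λ)) := by
  choose! I s t hcard hcov using coverS hΛ h hq0 hne X
  have hK0 : 0 < √Λ := Real.sqrt_pos.2 hΛ
  have hpi := Real.two_pi_pos
  set C : ℝ := 4 * (6 * Real.pi * √Λ + (2 + 10 * √Λ)) * (1 + 2 * Real.pi) with hC
  have hCle : C ≤ 850 * (1 + √Λ) := by
    have h1 : Real.pi < 3.15 := Real.pi_lt_d2
    have h2 : 4 * (6 * Real.pi * √Λ + (2 + 10 * √Λ)) ≤ 4 * (28.9 * √Λ + 2) := by nlinarith
    have h3 : 1 + 2 * Real.pi ≤ 7.3 := by linarith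
    have h4 : 0 ≤ 4 * (28.9 * √Λ + 2) := by positivity
    calc C ≤ 4 * (28.9 * √Λ + 2) * 7.3 := mul_le_mul h2 h3 (by positivity) h4
      _ ≤ 850 * (1 + √Λ) := by nlinarith
  refine le_trans ?_ (ENNReal.ofReal_le_ofReal hCle)
  have hev : ∀ᶠ N : ℕ in atTop, 0 < N ∧ √Λ * (1 / N) < 1 := by
    have h3 : Tendsto (fun N : ℕ => √Λ * (1 / (N : ℝ))) atTop (𝓝 (√Λ * 0)) :=
      (tendsto_const_div_atTop_nhds_zero_nat 1).const_mul (√Λ)
    rw [mul_zero] at h3
    exact (eventually_gt_atTop 0).and (h3.eventually (gt_mem_nhds one_pos))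
  have hr : Tendsto (fun N : ℕ => ENNReal.ofReal ((1 + 2 * Real.pi) / N)) atTop (𝓝 0) := by
    have h3 := (ENNReal.continuous_ofReal.tendsto 0).comp (tendsto_const_div_atTop_nhds_zero_nat (1 + 2 * Real.pi))
    rw [ENNReal.ofReal_zero] at h3
    exact h3
  set Q : ∀ N : ℕ, ↥(I N) → Set ℂ := fun N p =>
    {z : ℂ | (s N + p.1.1 * (1 / N) ≤ z.re ∧ z.re ≤ s N + (p.1.1 + 1) * (1 / N)) ∧
      (t N + p.1.2 * (2 * Real.pi / N) ≤ z.im ∧ z.im ≤ t N + (p.1.2 + 1) * (2 * Real.pi / N))} with hQ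
  have hdiam : ∀ N p, Metric.ediam (Q N p) ≤ ENNReal.ofReal ((1 + 2 * Real.pi) / N) := by
    intro N p
    apply Metric.ediam_le
    intro z hz w hw
    rw [edist_dist, dist_eq_norm]
    apply ENNReal.ofReal_le_ofReal
    refine (Complex.norm_le_abs_re_add_abs_im _).trans ?_
    simp only [hQ, mem_ofPred_eq] at hz hw
    obtain ⟨⟨z1, z2⟩, ⟨z3, z4⟩⟩ := hz
    obtain ⟨⟨w1, w2⟩, ⟨w3, w4⟩⟩ := hw
    have e1 : |(z - w).re| ≤ 1 / N := by
      rw [Complex.sub_re, abs_le]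
      constructor <;> linarith
    have e2 : |(z - w).im| ≤ 2 * Real.pi / N := by
      rw [Complex.sub_im, abs_le]
      constructor <;> linarith
    calc _ ≤ 1 / N + 2 * Real.pi / N := add_le_add e1 e2
      _ = (1 + 2 * Real.pi) / N := by ring
  refine le_trans (hausdorffMeasure_le_liminf_sum 1 _ (l := atTop)
    (fun N : ℕ => ENNReal.ofReal ((1 + 2 * Real.pi) / N)) hr Q (Eventually.of_forall fun N p => hdiam N p) ?_) ?_
  · filter_upwards [hev] with N hN z hz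
    obtain ⟨⟨z1, z2⟩, ⟨z3, z4⟩, z5⟩ := hz
    obtain ⟨p, hp, h3, h4⟩ := hcov N hN.1 hN.2 _ _ z1 z2 z3 z4 z5
    exact mem_iUnion.2 ⟨⟨p, hp⟩, h3, h4⟩
  · have hlim : Tendsto (fun N : ℕ => ENNReal.ofReal (C * (1 + 1 / N))) atTop
        (𝓝 (ENNReal.ofReal C)) := by
      apply (ENNReal.continuous_ofReal.tendsto _).comp
      have h3 : Tendsto (fun N : ℕ => C * (1 + 1 / (N : ℝ))) atTop (𝓝 (C * (1 + 0))) :=
        (tendsto_const_nhds.add (tendsto_const_div_atTop_nhds_zero_nat 1)).const_mul _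
      simpa using h3
    rw [← hlim.liminf_eq]
    refine liminf_le_liminf ?_ (by isBoundedDefault) (by isBoundedDefault)
    filter_upwards [hev] with N hN
    have hN0 : (0 : ℝ) < N := by exact_mod_cast hN.1
    calc ∑ p : ↥(I N), Metric.ediam (Q N p) ^ (1 : ℝ) ≤ ∑ _p : ↥(I N), ENNReal.ofReal ((1 + 2 * Real.pi) / N) := by
          apply Finset.sum_le_sum
          intro p _
          rw [ENNReal.rpow_one]
          exact hdiam N p
      _ = ((I N).card : ℝ≥0∞) * ENNReal.ofReal ((1 + 2 * Real.pi) / N) := by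
          rw [Finset.sum_const, Finset.card_univ, Fintype.card_coe, nsmul_eq_mul]
      _ = ENNReal.ofReal ((I N).card * ((1 + 2 * Real.pi) / N)) := by
          rw [ENNReal.ofReal_mul (Nat.cast_nonneg _), ENNReal.ofReal_natCast]
      _ ≤ ENNReal.ofReal (C * (1 + 1 / N)) := by
          apply ENNReal.ofReal_le_ofReal
          have h3 := mul_le_mul_of_nonneg_right (hcard N hN.1 hN.2) (show 0 ≤ (1 + 2 * Real.pi) / N by positivity)
          refine h3.trans (le_of_eq ?_)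
          rw [hC]
          field_simp

end Pool.Agent.Q167.SR
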